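import Pool.Agent.Q132.EP.St
import Pool.Agent.Q41.PT.Transfer

set_option autoImplicit false

/-!
# The generating function of a pattern and its multiple by a power of the Euler product
-/

namespace Pool.Agent.Q132.EP

open PowerSeries Pool.Agent.H397R2.PP Pool.Agent.H397R2.PP.TH
open Pool.Agent.H307R2.OP (S)
open Pool.Agent.Q41.PT (F1 f1 F1_mul_f1 F1_pow_mul coeff_D zmod_cases card_supp)

/-- the generating function of the pattern -/
noncomputable def PA (A : Finset ℕ) : S := ∑ a ∈ A, X ^ a * F1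

/-- the pattern: the sum of the `p (n - a)`, `a ∈ A`, `a ≤ n` -/
def psum (A : Finset ℕ) (n : ℕ) : ℕ := ∑ a ∈ A.filter (· ≤ n), Fintype.card (Nat.Partition (n - a))

lemma coeff_PA (A : Finset ℕ) (n : ℕ) : coeff n (PA A) = (psum A n : ZMod 2) := by
  unfold PA psum
  rw [map_sum, Finset.sum_filter]
  push_cast
  refine Finset.sum_congr rfl fun a _ => ?_
  rw [coeff_X_pow_mul']
  split_ifs
  · rw [F1, coeff_mk]
  · rfl

lemma even_iff (A : Finset ℕ) (n : ℕ) : coeff n (PA A) = 0 ↔ Even (psum A n) := by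
  rw [coeff_PA, ZMod.natCast_eq_zero_iff, even_iff_two_dvd]

lemma odd_iff (A : Finset ℕ) (n : ℕ) : coeff n (PA A) ≠ 0 ↔ Odd (psum A n) := by
  rw [Ne, even_iff, Nat.not_even_iff_odd]

lemma coeff_PA_mul (A : Finset ℕ) (k m n : ℕ) (hm : 3 * m + 1 = 4 ^ k) :
    coeff n (PA A * f1 ^ (2 ^ (2 * k))) =
      ∑ a ∈ A.filter (· ≤ n), coeff (8 * (n - a) + m) (Db ^ m) := by
  have h4 : (2 : ℕ) ^ (2 * k) = 4 ^ k := by rw [pow_mul]; norm_num
  unfold PA
  rw [Finset.sum_mul, map_sum, Finset.sum_filter, h4]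
  refine Finset.sum_congr rfl fun a _ => ?_
  have h1 := F1_pow_mul 1 m (4 ^ k) hm
  rw [pow_one] at h1
  rw [mul_assoc, h1, coeff_X_pow_mul']
  split_ifs
  · rw [coeff_D]
  · rfl

lemma coeff_mul_expand (G : S) (e n : ℕ) : coeff n (G * f1 ^ (2 ^ e)) =
    ∑ p ∈ Finset.HasAntidiagonal.antidiagonal n, coeff p.1 G *
      coeff p.2 (PowerSeries.expand (2 ^ e) (by positivity) f1) := by
  rw [pow_eq_expand' (2 ^ e) e (by positivity) rfl, coeff_mul]

lemma sum_expand (e n : ℕ) : ∑ p ∈ Finset.HasAntidiagonal.antidiagonal n,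
    coeff p.2 (PowerSeries.expand (2 ^ e) (by positivity) f1) = Jm (2 ^ e) n := by
  have hM : 0 < 2 ^ e := by positivity
  rw [Finset.Nat.sum_antidiagonal_eq_sum_range_succ_mk]
  simp only
  rw [← Finset.sum_range_reflect]
  have h1 : ∀ j ∈ Finset.range (n + 1),
      coeff (n - (n + 1 - 1 - j)) (PowerSeries.expand (2 ^ e) (by positivity) f1) =
      if 2 ^ e ∣ j then coeff (j / 2 ^ e) f1 else 0 := by
    intro j hj
    rw [Finset.mem_range] at hj
    have h2 : n - (n + 1 - 1 - j) = j := by omega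
    rw [h2, coeff_expand]
  rw [Finset.sum_congr rfl h1, ← Finset.sum_filter]
  unfold Jm
  symm
  apply Finset.sum_bij (fun v _ => 2 ^ e * v)
  · intro v hv
    rw [Finset.mem_range] at hv
    rw [Finset.mem_filter, Finset.mem_range]
    refine ⟨?_, Dvd.intro v rfl⟩
    have h3 : v ≤ n / 2 ^ e := by omega
    have h4 : v * 2 ^ e ≤ n := (Nat.le_div_iff_mul_le hM).1 h3
    rw [mul_comm] at h4
    omega
  · intro v _ v' _ h
    exact Nat.eq_of_mul_eq_mul_left hM h
  · intro j hj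
    rw [Finset.mem_filter, Finset.mem_range] at hj
    obtain ⟨hj1, v, rfl⟩ := hj
    refine ⟨v, ?_, rfl⟩
    rw [Finset.mem_range]
    have h3 : v ≤ n / 2 ^ e := by
      rw [Nat.le_div_iff_mul_le hM, mul_comm]
      omega
    omega
  · intro v _
    rw [Nat.mul_div_cancel_left _ hM]
    rfl

/-- an even value of the pattern -/
lemma pair0 (G : S) (e n : ℕ) (h : coeff n (G * f1 ^ (2 ^ e)) ≠ Jm (2 ^ e) n) :
    ∃ u v : ℕ, u + 2 ^ e * v = n ∧ coeff u G = 0 ∧ coeff v (f1 ^ 1) ≠ 0 := by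
  by_contra hcon
  push Not at hcon
  apply h
  rw [coeff_mul_expand, ← sum_expand]
  refine Finset.sum_congr rfl fun p hp => ?_
  rw [Finset.HasAntidiagonal.mem_antidiagonal] at hp
  rcases zmod_cases (coeff p.1 G) with h1 | h1
  · rw [h1, zero_mul, coeff_expand]
    split_ifs with hd
    · obtain ⟨v, hv⟩ := hd
      have hM : 0 < 2 ^ e := by positivity
      rw [hv, Nat.mul_div_cancel_left _ hM]
      have h2 := hcon p.1 v (by rw [← hv]; exact hp) h1
      rw [pow_one] at h2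
      exact h2.symm
    · rfl
  · rw [h1, one_mul]

/-- an odd value of the pattern -/
lemma pair1 (G : S) (e n : ℕ) (h : coeff n (G * f1 ^ (2 ^ e)) ≠ 0) :
    ∃ u v : ℕ, u + 2 ^ e * v = n ∧ coeff u G ≠ 0 ∧ coeff v (f1 ^ 1) ≠ 0 := by
  by_contra hcon
  push Not at hcon
  apply h
  rw [coeff_mul_expand]
  refine Finset.sum_eq_zero fun p hp => ?_
  rw [Finset.HasAntidiagonal.mem_antidiagonal] at hp
  by_cases h1 : coeff p.1 G = 0
  · rw [h1, zero_mul]
  · rw [coeff_expand]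
    split_ifs with hd
    · obtain ⟨v, hv⟩ := hd
      have hM : 0 < 2 ^ e := by positivity
      rw [hv, Nat.mul_div_cancel_left _ hM]
      have h2 := hcon p.1 v (by rw [← hv]; exact hp) h1
      rw [pow_one] at h2
      rw [h2, mul_zero]
    · rw [mul_zero]

/-- the count: a set of `n ≤ x` in a class modulo `2 ^ b`, each of which is `u + 2 ^ e v` with `v` pentagonal
and `u` with a given property -/
lemma card_le_mul (P : ℕ → Prop) [DecidablePred P] (e b ρ x : ℕ) (hb : b ≤ e) (T : Finset ℕ)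
    (hT : ∀ n ∈ T, n ≤ x ∧ n % 2 ^ b = ρ % 2 ^ b ∧
      ∃ u v : ℕ, u + 2 ^ e * v = n ∧ P u ∧ coeff v (f1 ^ 1) ≠ 0) :
    T.card ≤ ((Finset.range (x + 1)).filter fun u => u % 2 ^ b = ρ % 2 ^ b ∧ P u).card *
      (Nat.sqrt (24 * (x / 2 ^ e) + 1) + 1) := by
  classical
  have hM : 0 < 2 ^ e := by positivity
  have hch : ∀ n : ℕ, ∃ p : ℕ × ℕ, n ∈ T → p.1 + 2 ^ e * p.2 = n ∧
      P p.1 ∧ coeff p.2 (f1 ^ 1) ≠ 0 := by
    intro n
    by_cases hn : n ∈ T
    · obtain ⟨-, -, u, v, h2, h3, h4⟩ := hT n hn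
      exact ⟨(u, v), fun _ => ⟨h2, h3, h4⟩⟩
    · exact ⟨(0, 0), fun h => absurd h hn⟩
  choose g hg using hch
  have hVc := card_supp 1 (Or.inl rfl) (x / 2 ^ e)
  refine le_trans ?_ (Nat.mul_le_mul_left _ hVc)
  rw [← Finset.card_product]
  apply Finset.card_le_card_of_injOn g
  · intro n hn
    have hn' : n ∈ T := hn
    obtain ⟨h1, h2, h3⟩ := hg n hn'
    obtain ⟨h4, h5, -⟩ := hT n hn'
    rw [Finset.mem_coe, Finset.mem_product, Finset.mem_filter, Finset.mem_range, Finset.mem_filter,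
      Finset.mem_range]
    refine ⟨⟨by
      have : 0 ≤ 2 ^ e * (g n).2 := Nat.zero_le _
      omega, ?_, h2⟩, ?_, h3⟩
    · obtain ⟨d, hd⟩ : (2 ^ b : ℕ) ∣ 2 ^ e := pow_dvd_pow 2 hb
      have h7 : ((g n).1 + 2 ^ e * (g n).2) % 2 ^ b = (g n).1 % 2 ^ b := by
        rw [hd, mul_assoc, Nat.add_mul_mod_self_left]
      rw [h1] at h7
      rw [← h7, h5]
    · have h6 : (g n).2 ≤ x / 2 ^ e := by
        rw [Nat.le_div_iff_mul_le hM, mul_comm]
        omega
      omega
  · intro n hn n' hn' h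
    have h1 := (hg n hn).1
    have h2 := (hg n' hn').1
    rw [h] at h1
    omega

end Pool.Agent.Q132.EP
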