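import Pool.Agent.Q132.EP.Van
import Pool.Agent.Q132.EP.Pair

set_option autoImplicit false

/-!
# Even values of the patterns
-/

namespace Pool.Agent.Q132.EP

open Finset Filter Topology
open Pool.Agent.H397R2.PP (Db)
open Pool.Agent.Q41.PT (f1)

lemma Jm_class (e b r n : ℕ) (hb : b ≤ e) (hr : r < 2 ^ b) :
    Jm (2 ^ e) (2 ^ b * n + r) = Jm (2 ^ (e - b)) n := by
  have h1 : (2 : ℕ) ^ e = 2 ^ b * 2 ^ (e - b) := by rw [← pow_add]; congr 1; omega
  have h2 : (2 ^ b * n + r) / 2 ^ e = n / 2 ^ (e - b) := by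
    rw [h1, ← Nat.div_div_eq_div_mul]
    congr 1
    rw [Nat.mul_add_div (by positivity), Nat.div_eq_of_lt hr, add_zero]
  unfold Jm
  rw [h2]

/-- the numbers in a class with an odd number of pentagonal numbers -/
theorem t0 (hJ : S_JOD) (e b ρ x : ℕ) (hb : b ≤ e) (hx : 20000 * 2 ^ e ≤ x) :
    (x : ℝ) / 2 ^ b * 0.4 ≤
      (((range (x + 1)).filter (fun n => n % 2 ^ b = ρ % 2 ^ b ∧ Jm (2 ^ e) n = 1)).card : ℝ) := by
  classical
  have hBp : 0 < 2 ^ b := by positivity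
  set M' : ℕ := 2 ^ (e - b) with hM'
  have hMp : 0 < M' := by positivity
  have hMe : 2 ^ e = 2 ^ b * M' := by rw [hM', ← pow_add]; congr 1; omega
  set Y : ℕ := x / 2 ^ b with hY
  have hY1 : 20000 * M' ≤ Y := by
    rw [hY, Nat.le_div_iff_mul_le hBp]
    calc 20000 * M' * 2 ^ b = 20000 * (2 ^ b * M') := by ring
      _ ≤ x := by rw [← hMe]; exact hx
  set W : ℕ := 2 * Y / (3 * M') with hW
  have hW1 : 13333 ≤ W := by
    rw [hW, Nat.le_div_iff_mul_le (by positivity)]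
    nlinarith
  have hW2 : W * (3 * M') ≤ 2 * Y := Nat.div_mul_le_self _ _
  have hW3 : 2 * Y < (W + 1) * (3 * M') := by
    have := Nat.lt_div_mul_add (a := 2 * Y) (b := 3 * M') (by positivity)
    rw [← hW] at this
    nlinarith
  set L : ℕ := Nat.sqrt W with hL
  have hL1 : L * L ≤ W := Nat.sqrt_le W
  have hL2 : W < (L + 1) * (L + 1) := Nat.lt_succ_sqrt W
  have hL3 : 115 ≤ L := by
    rw [hL, Nat.le_sqrt]
    omega
  have hcond : M' * (L * (3 * L - 1) / 2) ≤ Y := by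
    have h1 : 2 * (L * (3 * L - 1) / 2) ≤ L * (3 * L - 1) := Nat.mul_div_le _ _
    have h2 : L * (3 * L - 1) ≤ 3 * (L * L) := by
      calc L * (3 * L - 1) ≤ L * (3 * L) := Nat.mul_le_mul_left _ (Nat.sub_le _ _)
        _ = 3 * (L * L) := by ring
    have h3 : 2 * (M' * (L * (3 * L - 1) / 2)) ≤ 2 * Y := by
      calc 2 * (M' * (L * (3 * L - 1) / 2)) = M' * (2 * (L * (3 * L - 1) / 2)) := by ring
        _ ≤ M' * (3 * (L * L)) := Nat.mul_le_mul_left _ (h1.trans h2)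
        _ ≤ M' * (3 * W) := Nat.mul_le_mul_left _ (Nat.mul_le_mul_left _ hL1)
        _ = W * (3 * M') := by ring
        _ ≤ 2 * Y := hW2
    omega
  have hmain := hJ M' L Y hMp hcond
  -- the map
  have hr : ρ % 2 ^ b < 2 ^ b := Nat.mod_lt _ hBp
  have hcard : ((range Y).filter (fun n => Jm M' n = 1)).card ≤
      ((range (x + 1)).filter (fun n => n % 2 ^ b = ρ % 2 ^ b ∧ Jm (2 ^ e) n = 1)).card := by
    apply Finset.card_le_card_of_injOn (fun n => 2 ^ b * n + ρ % 2 ^ b)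
    · intro n hn
      rw [mem_coe, mem_filter, mem_range] at hn
      rw [mem_coe, mem_filter, mem_range]
      refine ⟨?_, ?_, ?_⟩
      · have h1 : (n + 1) * 2 ^ b ≤ x := by
          rw [← Nat.le_div_iff_mul_le hBp]
          exact hn.1
        have h2 : (n + 1) * 2 ^ b = 2 ^ b * n + 2 ^ b := by ring
        show 2 ^ b * n + ρ % 2 ^ b < x + 1
        omega
      · show (2 ^ b * n + ρ % 2 ^ b) % 2 ^ b = ρ % 2 ^ b
        rw [Nat.mul_add_mod_self_left, Nat.mod_mod]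
      · rw [Jm_class e b _ n hb hr]
        exact hn.2
    · intro n _ n' _ h
      simp only at h
      have : 2 ^ b * n = 2 ^ b * n' := by omega
      exact Nat.eq_of_mul_eq_mul_left hBp this
  have hfin : ((M' * L ^ 2 : ℕ) : ℝ) ≤
      (((range (x + 1)).filter (fun n => n % 2 ^ b = ρ % 2 ^ b ∧ Jm (2 ^ e) n = 1)).card : ℝ) := by
    exact_mod_cast hmain.trans hcard
  refine le_trans ?_ hfin
  -- numerics
  have hLr : (115 : ℝ) ≤ L := by exact_mod_cast hL3
  have hMr : (1 : ℝ) ≤ M' := by exact_mod_cast hMp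
  have h4 : (2 : ℝ) * Y < (((L : ℝ) + 1) * (L + 1)) * (3 * M') := by
    have h5 : 2 * Y < ((L + 1) * (L + 1)) * (3 * M') :=
      lt_of_lt_of_le hW3 (Nat.mul_le_mul_right _ hL2)
    exact_mod_cast h5
  have h6 : ((L : ℝ) + 1) * (L + 1) ≤ 1.05 * L ^ 2 := by nlinarith
  have h7 : (2 : ℝ) * Y ≤ 3.15 * (M' * L ^ 2) := by
    have : (((L : ℝ) + 1) * (L + 1)) * (3 * M') ≤ (1.05 * L ^ 2) * (3 * M') :=
      mul_le_mul_of_nonneg_right h6 (by positivity)
    nlinarith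
  have h8 : (x : ℝ) / 2 ^ b ≤ Y + 1 := by
    rw [div_le_iff₀ (by positivity)]
    have h9 : x < 2 ^ b * (Y + 1) := by
      rw [hY]
      exact Nat.lt_mul_div_succ x hBp
    have : (x : ℝ) ≤ 2 ^ b * (Y + 1) := by exact_mod_cast h9.le
    linarith
  have h10 : (20000 : ℝ) ≤ Y := by
    have : 20000 ≤ Y := le_trans (Nat.le_mul_of_pos_right _ hMp) hY1
    exact_mod_cast this
  push_cast
  nlinarith

/-- the number of the arguments with a nonzero coefficient -/
theorem bad_card (A : Finset ℕ) (k m x : ℕ) (hm : 3 * m + 1 = 4 ^ (k + 1)) (hmx : m ≤ x) :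
    ((range (x + 1)).filter (fun n => ∃ a ∈ A, a ≤ n ∧
      PowerSeries.coeff (8 * (n - a) + m) (Db ^ m) ≠ 0)).card ≤
    A.card * ((Icc 1 (9 * x)).filter (fun N => cnt5 N ≤ 2 ^ k - 1)).card := by
  classical
  have hm1 : 1 ≤ m := by
    have : 4 ^ 1 ≤ 4 ^ (k + 1) := Nat.pow_le_pow_right (by norm_num) (by omega)
    omega
  have hsub : ((range (x + 1)).filter (fun n => ∃ a ∈ A, a ≤ n ∧
      PowerSeries.coeff (8 * (n - a) + m) (Db ^ m) ≠ 0)) ⊆
      A.biUnion fun a => (range (x + 1)).filter (fun n => a ≤ n ∧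
        PowerSeries.coeff (8 * (n - a) + m) (Db ^ m) ≠ 0) := by
    intro n hn
    rw [mem_filter] at hn
    obtain ⟨h1, a, ha, h2, h3⟩ := hn
    rw [mem_biUnion]
    exact ⟨a, ha, mem_filter.2 ⟨h1, h2, h3⟩⟩
  refine (card_le_card hsub).trans (card_biUnion_le_card_mul _ _ _ fun a _ => ?_)
  apply Finset.card_le_card_of_injOn (fun n => 8 * (n - a) + m)
  · intro n hn
    rw [mem_coe, mem_filter, mem_range] at hn
    obtain ⟨h1, h2, h3⟩ := hn
    rw [mem_coe, mem_filter, mem_Icc]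
    refine ⟨⟨?_, ?_⟩, ?_⟩
    · show 1 ≤ 8 * (n - a) + m
      omega
    · show 8 * (n - a) + m ≤ 9 * x
      omega
    show cnt5 (8 * (n - a) + m) ≤ 2 ^ k - 1
    by_contra hcon
    apply h3
    exact van k m _ hm (by omega)
  · intro n hn n' hn' h
    rw [mem_coe, mem_filter] at hn hn'
    simp only at h
    omega

/-- the count of the even values in terms of the exceptional set -/
theorem even_core (hJ : S_JOD) (A : Finset ℕ) (k m b ρ x : ℕ) (hm : 3 * m + 1 = 4 ^ (k + 1))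
    (hmx : m ≤ x) (hb : b ≤ 2 * (k + 1)) (hx : 20000 * 2 ^ (2 * (k + 1)) ≤ x) :
    (x : ℝ) / 2 ^ b * 0.4 - A.card * (((Icc 1 (9 * x)).filter (fun N => cnt5 N ≤ 2 ^ k - 1)).card : ℝ) ≤
      (((range (x + 1)).filter fun u => u % 2 ^ b = ρ % 2 ^ b ∧ Even (psum A u)).card : ℝ) *
      (Nat.sqrt (24 * (x / 2 ^ (2 * (k + 1))) + 1) + 1) := by
  classical
  set e := 2 * (k + 1) with he
  set T0 := (range (x + 1)).filter (fun n => n % 2 ^ b = ρ % 2 ^ b ∧ Jm (2 ^ e) n = 1) with hT0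
  set Bd := (range (x + 1)).filter (fun n => ∃ a ∈ A, a ≤ n ∧
      PowerSeries.coeff (8 * (n - a) + m) (Db ^ m) ≠ 0) with hBd
  have h1 := t0 hJ e b ρ x hb hx
  rw [← hT0] at h1
  have h2 := bad_card A k m x hm hmx
  rw [← hBd] at h2
  have h3 : T0.card ≤ (T0 \ Bd).card + Bd.card := by
    exact Finset.card_le_card_sdiff_add_card
  have h4 := card_le_mul (fun u => Even (psum A u)) e b ρ x hb (T0 \ Bd) (by
    intro n hn
    rw [Finset.mem_sdiff, hT0, mem_filter, mem_range, hBd, mem_filter] at hn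
    obtain ⟨⟨h5, h6, h7⟩, h8⟩ := hn
    refine ⟨by omega, h6, ?_⟩
    have h9 : PowerSeries.coeff n (PA A * f1 ^ (2 ^ e)) = 0 := by
      rw [coeff_PA_mul A (k + 1) m n hm]
      refine Finset.sum_eq_zero fun a ha => ?_
      rw [mem_filter] at ha
      by_contra hcon
      exact h8 ⟨mem_range.2 h5, a, ha.1, ha.2, hcon⟩
    obtain ⟨u, v, h10, h11, h12⟩ := pair0 (PA A) e n (by
      rw [h9, h7]
      exact zero_ne_one)
    exact ⟨u, v, h10, (even_iff A u).1 h11, h12⟩)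
  have h5 : (T0.card : ℝ) ≤ ((T0 \ Bd).card : ℝ) + Bd.card := by exact_mod_cast h3
  have h6 : (Bd.card : ℝ) ≤ A.card *
      (((Icc 1 (9 * x)).filter (fun N => cnt5 N ≤ 2 ^ k - 1)).card : ℝ) := by exact_mod_cast h2
  have h7 : ((T0 \ Bd).card : ℝ) ≤
      (((range (x + 1)).filter fun u => u % 2 ^ b = ρ % 2 ^ b ∧ Even (psum A u)).card : ℝ) *
      (Nat.sqrt (24 * (x / 2 ^ e) + 1) + 1) := by exact_mod_cast h4
  linarith

end Pool.Agent.Q132.EP
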