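import Pool.Agent.Q132.EP.Even

set_option autoImplicit false

/-!
# Even values of the patterns: the asymptotic form
-/

namespace Pool.Agent.Q132.EP

open Finset Filter Topology

/-- `log log x` -/
noncomputable def LL (x : ℕ) : ℝ := Real.log (Real.log x)

lemma log_tend : Tendsto (fun x : ℕ => Real.log (x : ℝ)) atTop atTop :=
  Real.tendsto_log_atTop.comp tendsto_natCast_atTop_atTop

lemma LL_tend : Tendsto LL atTop atTop := Real.tendsto_log_atTop.comp log_tend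

lemma Q5_mono {y y' z : ℕ} (h : y ≤ y') : Q5 y' z ⊆ Q5 y z := by
  intro q hq
  unfold Q5 at *
  rw [mem_filter, mem_Ioc] at *
  exact ⟨⟨by omega, hq.1.2⟩, hq.2⟩

lemma S5_mono {y y' z : ℕ} (h : y ≤ y') : S5 y' z ≤ S5 y z :=
  Finset.sum_le_sum_of_subset_of_nonneg (Q5_mono h) fun _ _ _ => by positivity

lemma S5_nonneg (y z : ℕ) : 0 ≤ S5 y z := Finset.sum_nonneg fun _ _ => by positivity

lemma S5_zero (hMs : S_MAS) : ∃ C : ℝ, 0 ≤ C ∧ ∀ᶠ x : ℕ in atTop, LL x / 6 - C ≤ S5 0 (9 * x) := by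
  obtain ⟨C, hC, h⟩ := hMs
  refine ⟨C + 1, by linarith, ?_⟩
  filter_upwards [eventually_ge_atTop 3, log_tend.eventually_ge_atTop 1] with x hx hl
  have h1 := (h 3 (9 * x) le_rfl (by omega)).2
  have h2 : S5 3 (9 * x) ≤ S5 0 (9 * x) := S5_mono (by norm_num)
  have h3 : LL x ≤ Real.log (Real.log ((9 * x : ℕ) : ℝ)) := by
    unfold LL
    apply Real.log_le_log (by linarith)
    apply Real.log_le_log (by exact_mod_cast (by omega : 0 < x))
    exact_mod_cast (by omega : x ≤ 9 * x)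
  have h4 : Real.log (Real.log ((3 : ℕ) : ℝ)) ≤ 1 := by
    have h5 : Real.log ((3 : ℕ) : ℝ) ≤ 2 := by
      have := Real.log_le_sub_one_of_pos (show (0 : ℝ) < ((3 : ℕ) : ℝ) by norm_num)
      norm_num at this ⊢
      linarith
    have h6 : 0 < Real.log ((3 : ℕ) : ℝ) := Real.log_pos (by norm_num)
    have := Real.log_le_sub_one_of_pos h6
    linarith
  generalize Real.log (Real.log ((3 : ℕ) : ℝ)) = w1 at h1 h4
  generalize Real.log (Real.log ((9 * x : ℕ) : ℝ)) = w2 at h1 h3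
  linarith

lemma log100 : Real.log 100 ≤ 4.7 := by
  have h1 : Real.log 100 ≤ Real.log (2 ^ 7 : ℝ) - Real.log (1.28 : ℝ) := by
    rw [← Real.log_div (by norm_num) (by norm_num)]
    apply Real.log_le_log (by norm_num)
    norm_num
  have h2 : Real.log (2 ^ 7 : ℝ) = 7 * Real.log 2 := by rw [Real.log_pow]; norm_num
  have h3 := Real.log_two_lt_d9
  have h4 : (1 : ℝ) - 1 / 1.28 ≤ Real.log 1.28 := by
    have := Real.one_sub_inv_le_log_of_pos (show (0 : ℝ) < 1.28 by norm_num)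
    norm_num at this ⊢
    linarith
  norm_num at h4
  rw [h2] at h1
  linarith

/-- the parameter `k` -/
lemma exists_k (t : ℝ) (ht : 1 ≤ t) : ∃ k : ℕ, (2 : ℝ) ^ k ≤ t ∧ t < 2 ^ (k + 1) := by
  have h1 : 1 ≤ ⌊t⌋₊ := by
    rw [Nat.one_le_floor_iff]
    exact ht
  refine ⟨Nat.log 2 ⌊t⌋₊, ?_, ?_⟩
  · have h2 := Nat.pow_log_le_self 2 (x := ⌊t⌋₊) (by omega)
    calc (2 : ℝ) ^ Nat.log 2 ⌊t⌋₊ = ((2 ^ Nat.log 2 ⌊t⌋₊ : ℕ) : ℝ) := by push_cast; rfl
      _ ≤ (⌊t⌋₊ : ℝ) := by exact_mod_cast h2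
      _ ≤ t := Nat.floor_le (by linarith)
  · have h2 := Nat.lt_pow_succ_log_self (b := 2) (by norm_num) ⌊t⌋₊
    calc t < (⌊t⌋₊ : ℝ) + 1 := Nat.lt_floor_add_one t
      _ ≤ ((2 ^ (Nat.log 2 ⌊t⌋₊ + 1) : ℕ) : ℝ) := by exact_mod_cast h2
      _ = 2 ^ (Nat.log 2 ⌊t⌋₊ + 1) := by push_cast; rfl

lemma mul_exp_tend (C : ℝ) : Tendsto (fun t : ℝ => C * (t * Real.exp (-(t / 20)))) atTop (𝓝 0) := by
  have h1 : Tendsto (fun t : ℝ => t ^ 1 * Real.exp (-t)) atTop (𝓝 0) :=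
    Real.tendsto_pow_mul_exp_neg_atTop_nhds_zero 1
  have h2 : Tendsto (fun t : ℝ => t / 20) atTop atTop := tendsto_id.atTop_div_const (by norm_num)
  have h3 := (h1.comp h2).const_mul (20 * C)
  rw [mul_zero] at h3
  refine h3.congr fun t => ?_
  simp only [Function.comp, pow_one]
  ring

/-- **the even values** -/
theorem even_main (hF : S_FEW) (hMs : S_MAS) (hJ : S_JOD) :
    ∃ x0 : ℕ, ∀ x : ℕ, x0 ≤ x → ∀ (A : Finset ℕ) (b ρ : ℕ),
      (A.card : ℝ) ≤ Real.log x ^ (1 / 20 : ℝ) → (2 : ℝ) ^ b ≤ LL x / 100 →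
      Real.sqrt x * LL x / (2000 * 2 ^ b) ≤
        (((range (x + 1)).filter fun u => u % 2 ^ b = ρ % 2 ^ b ∧ Even (psum A u)).card : ℝ) := by
  obtain ⟨C, hC, hfew⟩ := hF
  obtain ⟨C1, hC10, hC1⟩ := S5_zero hMs
  have hev : ∀ᶠ x : ℕ in atTop, 9 * C * Real.exp C1 * 10 * (LL x * Real.exp (-(LL x / 20))) ≤ 1 := by
    have h := (mul_exp_tend (9 * C * Real.exp C1 * 10)).comp LL_tend
    exact (h.eventually (gt_mem_nhds one_pos)).mono fun x hx => le_of_lt hx
  have hev2 : ∀ᶠ x : ℕ in atTop, 20 * Real.log x ^ 2 ≤ x := by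
    have h1 : Tendsto (fun t : ℝ => Real.log t ^ 2 / (1 * t + 0)) atTop (𝓝 0) :=
      Real.tendsto_pow_log_div_mul_add_atTop 1 0 2 one_ne_zero
    have h2 := h1.comp (tendsto_natCast_atTop_atTop (R := ℝ))
    filter_upwards [h2.eventually (gt_mem_nhds (show (0 : ℝ) < 1 / 20 by norm_num)),
      eventually_ge_atTop 1] with x hx hx1
    simp only [Function.comp, one_mul, add_zero] at hx
    have hx0 : (0 : ℝ) < x := by exact_mod_cast hx1
    rw [div_lt_iff₀ hx0] at hx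
    linarith
  obtain ⟨x0, hx0⟩ := eventually_atTop.1 ((((hev.and hev2).and hC1).and
    ((LL_tend.eventually_ge_atTop 100).and (log_tend.eventually_ge_atTop 1))).and
    (eventually_ge_atTop 2))
  refine ⟨x0, fun x hx A b ρ hA hb => ?_⟩
  obtain ⟨⟨⟨⟨e1, e2⟩, e3⟩, e4, e5⟩, e6⟩ := hx0 x hx
  have hx0r : (0 : ℝ) < x := by exact_mod_cast (by omega : 0 < x)
  have hLlog : LL x ≤ Real.log x := by
    have := Real.log_le_sub_one_of_pos (show 0 < Real.log x by linarith)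
    unfold LL
    linarith
  obtain ⟨k, hk1, hk2⟩ := exists_k (LL x / 100) (by linarith)
  obtain ⟨m', hm, -⟩ := Pool.Agent.H397R2.PP.NIL.cont_m k
  set m := 2 * m' + 1 with hmdef
  have h4k : ((4 ^ (k + 1) : ℕ) : ℝ) ≤ LL x ^ 2 / 2500 := by
    have h1 : ((4 ^ (k + 1) : ℕ) : ℝ) = 4 * ((2 : ℝ) ^ k) ^ 2 := by
      push_cast
      rw [pow_succ, ← pow_mul, mul_comm k 2, pow_mul]
      norm_num
      ring
    rw [h1]
    have h2 : ((2 : ℝ) ^ k) ^ 2 ≤ (LL x / 100) ^ 2 := pow_le_pow_left₀ (by positivity) hk1 2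
    nlinarith
  have hLL2 : LL x ^ 2 ≤ Real.log x ^ 2 := pow_le_pow_left₀ (by linarith) hLlog 2
  have hMx : 20000 * 2 ^ (2 * (k + 1)) ≤ x := by
    have h1 : (2 : ℕ) ^ (2 * (k + 1)) = 4 ^ (k + 1) := by rw [pow_mul]; norm_num
    rw [h1]
    have h2 : ((20000 * 4 ^ (k + 1) : ℕ) : ℝ) ≤ (x : ℝ) := by
      push_cast at h4k ⊢
      nlinarith
    exact_mod_cast h2
  have hmx : m ≤ x := by
    have h1 : (2 : ℕ) ^ (2 * (k + 1)) = 4 ^ (k + 1) := by rw [pow_mul]; norm_num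
    omega
  have hbk : b ≤ 2 * (k + 1) := by
    have h1 : (2 : ℝ) ^ b < 2 ^ (k + 1) := lt_of_le_of_lt hb hk2
    have h2 : b < k + 1 := (pow_lt_pow_iff_right₀ (by norm_num : (1 : ℝ) < 2)).1 h1
    omega
  have hcore := even_core hJ A k m b ρ x hm hmx hbk hMx
  set N := (((range (x + 1)).filter fun u => u % 2 ^ b = ρ % 2 ^ b ∧ Even (psum A u)).card : ℝ)
    with hN
  have hN0 : 0 ≤ N := Nat.cast_nonneg _
  -- the exceptional set
  have hb1 : (1 : ℝ) ≤ 2 ^ b := one_le_pow₀ (by norm_num)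
  have hbpos : (0 : ℝ) < 2 ^ b := by linarith
  have hexc : A.card * (((Icc 1 (9 * x)).filter (fun N => cnt5 N ≤ 2 ^ k - 1)).card : ℝ) ≤
      (x : ℝ) / 2 ^ b * 0.1 := by
    have h1 := hfew (9 * x) (2 ^ k - 1) (by omega)
    have h2 : (100 : ℝ) ^ (2 ^ k - 1) ≤ Real.exp (0.047 * LL x) := by
      have h3 : (100 : ℝ) ^ (2 ^ k - 1) = Real.exp (((2 ^ k - 1 : ℕ) : ℝ) * Real.log 100) := by
        rw [Real.exp_nat_mul, Real.exp_log (by norm_num)]
      rw [h3, Real.exp_le_exp]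
      have h4 : ((2 ^ k - 1 : ℕ) : ℝ) ≤ LL x / 100 := by
        refine le_trans ?_ hk1
        have : ((2 ^ k - 1 : ℕ) : ℝ) ≤ ((2 ^ k : ℕ) : ℝ) := by exact_mod_cast Nat.sub_le _ _
        push_cast at this
        exact this
      calc ((2 ^ k - 1 : ℕ) : ℝ) * Real.log 100 ≤ (LL x / 100) * 4.7 :=
            mul_le_mul h4 log100 (Real.log_nonneg (by norm_num)) (by linarith)
        _ = 0.047 * LL x := by ring
    have h3 : Real.exp (-(99 / 100) * S5 0 (9 * x)) ≤ Real.exp C1 * Real.exp (-(0.165 * LL x)) := by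
      rw [← Real.exp_add, Real.exp_le_exp]
      nlinarith
    have h4 : (A.card : ℝ) ≤ Real.exp (0.05 * LL x) := by
      refine hA.trans (le_of_eq ?_)
      rw [Real.rpow_def_of_pos (by linarith)]
      unfold LL
      congr 1
      ring
    have hx9 : ((9 * x : ℕ) : ℝ) = 9 * x := by push_cast; ring
    rw [hx9] at h1
    have h5 : (((Icc 1 (9 * x)).filter (fun N => cnt5 N ≤ 2 ^ k - 1)).card : ℝ) ≤
        C * Real.exp (0.047 * LL x) * (9 * x) * (Real.exp C1 * Real.exp (-(0.165 * LL x))) := by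
      refine h1.trans ?_
      refine mul_le_mul ?_ h3 (Real.exp_pos _).le (by positivity)
      refine mul_le_mul_of_nonneg_right ?_ (by positivity)
      exact mul_le_mul_of_nonneg_left h2 hC.le
    have h6 : (A.card : ℝ) * (((Icc 1 (9 * x)).filter (fun N => cnt5 N ≤ 2 ^ k - 1)).card : ℝ) ≤
        Real.exp (0.05 * LL x) *
        (C * Real.exp (0.047 * LL x) * (9 * x) * (Real.exp C1 * Real.exp (-(0.165 * LL x)))) :=
      mul_le_mul h4 h5 (Nat.cast_nonneg _) (Real.exp_pos _).le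
    have h7 : Real.exp (0.05 * LL x) *
        (C * Real.exp (0.047 * LL x) * (9 * x) * (Real.exp C1 * Real.exp (-(0.165 * LL x)))) =
        9 * C * Real.exp C1 * x * Real.exp (-(0.068 * LL x)) := by
      have h8 : Real.exp (-(0.068 * LL x)) = Real.exp (0.05 * LL x) * Real.exp (0.047 * LL x) *
          Real.exp (-(0.165 * LL x)) := by
        rw [← Real.exp_add, ← Real.exp_add]
        congr 1
        ring
      rw [h8]
      ring
    have h9 : Real.exp (-(0.068 * LL x)) ≤ Real.exp (-(LL x / 20)) := by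
      rw [Real.exp_le_exp]
      linarith
    have h10 : 9 * C * Real.exp C1 * x * Real.exp (-(0.068 * LL x)) ≤
        9 * C * Real.exp C1 * x * Real.exp (-(LL x / 20)) :=
      mul_le_mul_of_nonneg_left h9 (by positivity)
    have h11 : 9 * C * Real.exp C1 * x * Real.exp (-(LL x / 20)) ≤ (x : ℝ) / 2 ^ b * 0.1 := by
      rw [div_mul_eq_mul_div, le_div_iff₀ hbpos]
      have h12 : (2 : ℝ) ^ b ≤ LL x := by linarith
      have h13 : 9 * C * Real.exp C1 * x * Real.exp (-(LL x / 20)) * 2 ^ b ≤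
          9 * C * Real.exp C1 * x * Real.exp (-(LL x / 20)) * LL x :=
        mul_le_mul_of_nonneg_left h12 (by positivity)
      have h14 : (9 * C * Real.exp C1 * 10 * (LL x * Real.exp (-(LL x / 20)))) * (0.1 * x) ≤
          1 * (0.1 * x) := mul_le_mul_of_nonneg_right e1 (by positivity)
      nlinarith
    linarith
  -- the square root
  have hdiv : ((x / 2 ^ (2 * (k + 1)) : ℕ) : ℝ) ≤ x / ((2 : ℝ) ^ (k + 1)) ^ 2 := by
    refine Nat.cast_div_le.trans (le_of_eq ?_)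
    push_cast
    rw [← pow_mul]
    congr 2
    ring
  set s := Real.sqrt x / 2 ^ (k + 1) with hs
  have hs2 : s ^ 2 = x / ((2 : ℝ) ^ (k + 1)) ^ 2 := by
    rw [hs, div_pow, Real.sq_sqrt hx0r.le]
  have hs0 : 0 ≤ s := by positivity
  have hs100 : 100 ≤ s := by
    have h1 : (20000 : ℝ) ≤ s ^ 2 := by
      rw [hs2, le_div_iff₀ (by positivity)]
      have h2 : ((20000 * 2 ^ (2 * (k + 1)) : ℕ) : ℝ) ≤ x := by exact_mod_cast hMx
      push_cast at h2
      rw [← pow_mul, mul_comm (k + 1) 2]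
      exact h2
    nlinarith
  have hsq : ((Nat.sqrt (24 * (x / 2 ^ (2 * (k + 1))) + 1) : ℕ) : ℝ) + 1 ≤ 6 * s := by
    have h1 : ((Nat.sqrt (24 * (x / 2 ^ (2 * (k + 1))) + 1) : ℕ) : ℝ) ≤ 4.95 * s := by
      refine Real.nat_sqrt_le_real_sqrt.trans ?_
      rw [Real.sqrt_le_left (by positivity)]
      push_cast
      nlinarith
    linarith
  have hfin : (x : ℝ) / 2 ^ b * 0.3 ≤ N * (6 * s) := by
    have h1 : N * (((Nat.sqrt (24 * (x / 2 ^ (2 * (k + 1))) + 1) : ℕ) : ℝ) + 1) ≤ N * (6 * s) :=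
      mul_le_mul_of_nonneg_left hsq hN0
    linarith
  have hx2 : (x : ℝ) = s * (2 ^ (k + 1)) * Real.sqrt x := by
    rw [hs, div_mul_cancel₀ _ (by positivity), Real.mul_self_sqrt hx0r.le]
  have h20 : Real.sqrt x * LL x / (2000 * 2 ^ b) * (6 * s) ≤ N * (6 * s) := by
    refine le_trans ?_ hfin
    have h21 : Real.sqrt x * LL x / (2000 * 2 ^ b) * (6 * s) =
        (Real.sqrt x * s * (6 * LL x / 2000)) / 2 ^ b := by
      field_simp
    rw [h21, div_mul_eq_mul_div]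
    apply div_le_div_of_nonneg_right _ hbpos.le
    have h22 : (x : ℝ) * 0.3 = Real.sqrt x * s * (0.3 * 2 ^ (k + 1)) := by
      conv_lhs => rw [hx2]
      ring
    rw [h22]
    apply mul_le_mul_of_nonneg_left _ (by positivity)
    linarith
  exact le_of_mul_le_mul_right h20 (by linarith)

end Pool.Agent.Q132.EP
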