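import Pool.Agent.Q132.EP.OddF

set_option autoImplicit false

/-!
# Patterns with positive and negative shifts
-/

namespace Pool.Agent.Q132.EP

open Finset Filter Topology

/-- the number of partitions of an integer, `0` for the negative integers -/
def part (n : ℤ) : ℕ := if 0 ≤ n then Fintype.card (Nat.Partition n.toNat) else 0

/-- `∑ p(n + j)` over the `j ∈ J` -/
def patSum (J : Finset ℤ) (n : ℕ) : ℕ := ∑ j ∈ J, part (n + j)

lemma patSum_eq (J : Finset ℤ) (L : ℕ) (hL : ∀ j ∈ J, j ≤ L) (n : ℕ) :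
    patSum J n = psum (J.image fun j => ((L : ℤ) - j).toNat) (n + L) := by
  unfold patSum psum
  rw [Finset.sum_filter, Finset.sum_image]
  · apply Finset.sum_congr rfl
    intro j hj
    have h1 := hL j hj
    unfold part
    by_cases h2 : 0 ≤ (n : ℤ) + j
    · have h3 : ((n : ℤ) + j).toNat = n + L - ((L : ℤ) - j).toNat := by omega
      rw [if_pos h2, if_pos (by omega), h3]
    · rw [if_neg h2, if_neg (by omega)]
  · intro j hj j' hj' h
    have h1 := hL j hj
    have h2 := hL j' hj'
    simp only at h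
    omega

lemma shift_count (P : ℕ → Prop) [DecidablePred P] (q ρ L x : ℕ) :
    ((range (x + 1)).filter fun u => u % q = (ρ + L) % q ∧ P u).card ≤
      ((range (x + 1)).filter fun n => n % q = ρ % q ∧ P (n + L)).card +
        ((range L).filter fun u => u % q = (ρ + L) % q).card := by
  classical
  set S := (range (x + 1)).filter fun n => n % q = ρ % q ∧ P (n + L) with hS
  have h1 : (range (x + 1)).filter (fun u => u % q = (ρ + L) % q ∧ P u) ⊆
      S.image (· + L) ∪ (range L).filter fun u => u % q = (ρ + L) % q := by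
    intro u hu
    rw [mem_filter, mem_range] at hu
    rw [mem_union, mem_image, mem_filter, mem_range]
    by_cases h2 : u < L
    · exact Or.inr ⟨h2, hu.2.1⟩
    · left
      refine ⟨u - L, ?_, by omega⟩
      rw [hS, mem_filter, mem_range]
      refine ⟨by omega, ?_, ?_⟩
      · have h3 : (u - L) + L ≡ ρ + L [MOD q] := by
          rw [Nat.sub_add_cancel (by omega)]
          exact hu.2.1
        exact Nat.ModEq.add_right_cancel' L h3
      · rw [Nat.sub_add_cancel (by omega)]
        exact hu.2.2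
  exact (card_le_card h1).trans ((card_union_le _ _).trans (Nat.add_le_add_right card_image_le _))

lemma class_count (q r L : ℕ) :
    ((range L).filter fun u => u % q = r % q).card ≤ L / q + 1 := by
  classical
  have h1 : ((range L).filter fun u => u % q = r % q).card ≤ (range (L / q + 1)).card := by
    apply Finset.card_le_card_of_injOn (fun u => u / q)
    · intro u hu
      rw [mem_coe, mem_filter, mem_range] at hu
      rw [mem_coe, mem_range]
      exact Nat.lt_succ_of_le (Nat.div_le_div_right hu.1.le)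
    · intro u hu v hv h
      rw [mem_coe, mem_filter] at hu hv
      simp only at h
      rw [← Nat.div_add_mod u q, ← Nat.div_add_mod v q, h, hu.2, hv.2]
  rwa [card_range] at h1

/-- **linear patterns of `p(n)` modulo 2, uniformly in the pattern** -/
theorem main (hF : S_FEW) (hMs : S_MAS) (hJ : S_JOD) (hS : S_SIE) (hAPL : S_APL) :
    ∃ x0 : ℕ, ∀ x : ℕ, x0 ≤ x → ∀ (J : Finset ℤ) (b ρ : ℕ),
      (J.card : ℝ) ≤ Real.log x ^ (1 / 20 : ℝ) → (∀ j ∈ J, (j : ℝ) ≤ Real.sqrt x / Real.log x) →
      (2 : ℝ) ^ b ≤ Real.log (Real.log x) / 200 →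
      Real.sqrt x * Real.log (Real.log x) / (4000 * 2 ^ b) ≤
        (((range (x + 1)).filter fun n => n % 2 ^ b = ρ % 2 ^ b ∧ Even (patSum J n)).card : ℝ) ∧
      ((∃ j ∈ J, 0 ≤ j) → Real.sqrt x / Real.log x ^ (199 / 200 : ℝ) ≤
        (((range (x + 1)).filter fun n => n % 2 ^ b = ρ % 2 ^ b ∧ Odd (patSum J n)).card : ℝ)) := by
  classical
  obtain ⟨xe, he⟩ := even_main hF hMs hJ
  obtain ⟨xo, ho⟩ := odd_main hS hMs hAPL
  obtain ⟨x2, h2⟩ := eventually_atTop.1 ((LL_tend.eventually_ge_atTop (10 ^ 6)).and ev_Big)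
  refine ⟨max xe (max xo x2), fun x hx J b ρ hJc hJm hb => ?_⟩
  obtain ⟨hT, hB⟩ := h2 x (le_trans (le_trans (le_max_right _ _) (le_max_right _ _)) hx)
  have hxe : xe ≤ x := le_trans (le_max_left _ _) hx
  have hxo : xo ≤ x := le_trans (le_trans (le_max_left _ _) (le_max_right _ _)) hx
  have hL := hB.Lpos
  have hx0 := hB.xpos
  set L : ℕ := J.sup Int.toNat with hLdef
  have hJL : ∀ j ∈ J, j ≤ (L : ℤ) := by
    intro j hj
    have h3 : j.toNat ≤ L := Finset.le_sup (f := Int.toNat) hj
    omega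
  have hLr : (L : ℝ) ≤ Real.sqrt x / Real.log x := by
    by_cases hJe : J.Nonempty
    · obtain ⟨j, hj, hj2⟩ := Finset.exists_mem_eq_sup J hJe Int.toNat
      rw [← hLdef] at hj2
      by_cases hj0 : 0 ≤ j
      · have h3 : (L : ℤ) = j := by omega
        have h4 : (L : ℝ) = (j : ℝ) := by exact_mod_cast h3
        rw [h4]
        exact hJm j hj
      · have h3 : L = 0 := by omega
        rw [h3, Nat.cast_zero]
        positivity
    · rw [not_nonempty_iff_eq_empty] at hJe
      have h3 : L = 0 := by rw [hLdef, hJe]; rfl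
      rw [h3, Nat.cast_zero]
      positivity
  set A : Finset ℕ := J.image fun j => ((L : ℤ) - j).toNat with hA
  have hAc : (A.card : ℝ) ≤ Real.log x ^ (1 / 20 : ℝ) := by
    refine le_trans ?_ hJc
    exact_mod_cast card_image_le
  have hsum : ∀ n, patSum J n = psum A (n + L) := patSum_eq J L hJL
  have hb1 : (1 : ℝ) ≤ 2 ^ b := one_le_pow₀ (by norm_num)
  have hbpos : (0 : ℝ) < 2 ^ b := by linarith
  have hsx : 0 < Real.sqrt x := Real.sqrt_pos.2 hx0
  have hLL1 : 1 ≤ Real.log x := by
    have := hB.Lbig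
    linarith
  change (2 : ℝ) ^ b ≤ LL x / 200 at hb
  change Real.sqrt x * LL x / (4000 * 2 ^ b) ≤ _ ∧ _
  constructor
  · have h3 := he x hxe A b (ρ + L) hAc (by linarith)
    have h4 := shift_count (fun u => Even (psum A u)) (2 ^ b) ρ L x
    have h5 := class_count (2 ^ b) (ρ + L) L
    have h6 : (((range (x + 1)).filter fun u => u % 2 ^ b = (ρ + L) % 2 ^ b ∧
        Even (psum A u)).card : ℝ) ≤ (((range (x + 1)).filter fun n => n % 2 ^ b = ρ % 2 ^ b ∧
        Even (psum A (n + L))).card : ℝ) + ((L : ℝ) / 2 ^ b + 1) := by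
      have h7 : ((L / 2 ^ b : ℕ) : ℝ) ≤ (L : ℝ) / 2 ^ b := by
        refine Nat.cast_div_le.trans (le_of_eq ?_)
        push_cast
        rfl
      have h8 : (((range (x + 1)).filter fun u => u % 2 ^ b = (ρ + L) % 2 ^ b ∧
        Even (psum A u)).card : ℝ) ≤ (((range (x + 1)).filter fun n => n % 2 ^ b = ρ % 2 ^ b ∧
        Even (psum A (n + L))).card : ℝ) + (((L / 2 ^ b : ℕ) : ℝ) + 1) := by
        exact_mod_cast h4.trans (Nat.add_le_add_left h5 _)
      linarith
    simp only [hsum]
    have h9 : (L : ℝ) / 2 ^ b + 1 ≤ Real.sqrt x * LL x / (4000 * 2 ^ b) := by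
      rw [le_div_iff₀ (by positivity)]
      have h10 : ((L : ℝ) / 2 ^ b + 1) * (4000 * 2 ^ b) = 4000 * L + 4000 * 2 ^ b := by
        field_simp
      rw [h10]
      have h11 : (L : ℝ) ≤ Real.sqrt x := hLr.trans (div_le_self hsx.le hLL1)
      have h12 : LL x ≤ Real.sqrt x := by
        apply Real.le_sqrt_of_sq_le
        have h13 := Real.quadratic_le_exp_of_nonneg hL.le
        rw [hB.xexp] at h13
        have h14 := hB.Lbig
        have h15 : LL x * 10 ≤ Real.log x := by linarith
        have h16 : (LL x * 10) ^ 2 ≤ Real.log x ^ 2 :=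
          pow_le_pow_left₀ (by linarith) h15 2
        nlinarith
      nlinarith
    have h10 : Real.sqrt x * LL x / (2000 * 2 ^ b) =
        Real.sqrt x * LL x / (4000 * 2 ^ b) + Real.sqrt x * LL x / (4000 * 2 ^ b) := by
      field_simp
      ring
    linarith
  · rintro ⟨j0, hj0, hj00⟩
    have hA0 : 0 ∈ A := by
      obtain ⟨j, hj, hj2⟩ := Finset.exists_mem_eq_sup J ⟨j0, hj0⟩ Int.toNat
      rw [← hLdef] at hj2
      rw [hA, mem_image]
      by_cases hjn : 0 ≤ j
      · exact ⟨j, hj, by omega⟩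
      · have h3 := hJL j0 hj0
        exact ⟨j0, hj0, by omega⟩
    have h3 := ho x hxo A b (ρ + L) hA0 hAc hb
    have h4 := shift_count (fun u => Odd (psum A u)) (2 ^ b) ρ L x
    have h5 : ((range L).filter fun u => u % 2 ^ b = (ρ + L) % 2 ^ b).card ≤ L :=
      (card_filter_le _ _).trans (card_range L).le
    have h6 : (((range (x + 1)).filter fun u => u % 2 ^ b = (ρ + L) % 2 ^ b ∧
        Odd (psum A u)).card : ℝ) ≤ (((range (x + 1)).filter fun n => n % 2 ^ b = ρ % 2 ^ b ∧
        Odd (psum A (n + L))).card : ℝ) + L := by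
      exact_mod_cast h4.trans (Nat.add_le_add_left h5 _)
    simp only [hsum]
    have h7 : (L : ℝ) ≤ Real.sqrt x / Real.log x ^ (199 / 200 : ℝ) := by
      refine hLr.trans ?_
      apply div_le_div_of_nonneg_left hsx.le (by positivity)
      calc Real.log x ^ (199 / 200 : ℝ) ≤ Real.log x ^ (1 : ℝ) :=
            Real.rpow_le_rpow_of_exponent_le hLL1 (by norm_num)
        _ = Real.log x := Real.rpow_one _
    linarith

end Pool.Agent.Q132.EP
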