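import Pool.Agent.Q132.EP.Van
import Pool.Agent.Q132.EP.Pair

set_option autoImplicit false

/-!
# Odd values of the patterns: from products of primes to odd values
-/

namespace Pool.Agent.Q132.EP

open Finset
open Pool.Agent.H397R2.PP (Db)
open Pool.Agent.Q41.PT (f1 exists_class)

/-- the good primes for the product of the primes in `B`, in the class `c` modulo `2 ^ (b + 3)` -/
def GB (A : Finset ℕ) (k b x z c : ℕ) (B : Finset ℕ) : Finset ℕ :=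
  (Icc 1 (x / ∏ q ∈ B, q)).filter fun p => p.Prime ∧ p % 2 ^ (b + 3) = c ∧ z < p ∧
    ∀ a ∈ A, a ≠ 0 → 8 * a < (∏ q ∈ B, q) * p → 2 ^ k ≤ cnt5 ((∏ q ∈ B, q) * p - 8 * a)

/-- the class of the large prime -/
def IsCls (m b ρ : ℕ) (B : Finset ℕ) (c : ℕ) : Prop :=
  c < 2 ^ (b + 3) ∧ c % 2 = 1 ∧ c % 8 = 5 ∧ ((∏ q ∈ B, q) * c) % 2 ^ (b + 3) = (8 * ρ + m) % 2 ^ (b + 3)

lemma prod_mod (B : Finset ℕ) (hB : ∀ q ∈ B, q % 8 = 5) (hc : Even B.card) :
    (∏ q ∈ B, q) % 8 = 1 := by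
  have h1 : (∏ q ∈ B, q) ≡ ∏ _q ∈ B, 5 [MOD 8] := by
    refine Nat.ModEq.prod fun q hq => ?_
    exact hB q hq
  rw [Finset.prod_const] at h1
  obtain ⟨t, ht⟩ := hc
  have h2 : (5 : ℕ) ^ B.card ≡ 1 [MOD 8] := by
    rw [ht, ← two_mul, pow_mul]
    have : (5 : ℕ) ^ 2 ≡ 1 [MOD 8] := by decide
    simpa using this.pow t
  have h3 := h1.trans h2
  exact h3

lemma m_mod (k m : ℕ) (hk : 1 ≤ k) (hm : 3 * m + 1 = 4 ^ (k + 1)) : m % 8 = 5 := by
  obtain ⟨j, rfl⟩ : ∃ j, k = j + 1 := ⟨k - 1, by omega⟩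
  have h1 : 4 ^ (j + 1 + 1) = 16 * 4 ^ j := by rw [pow_succ, pow_succ]; ring
  omega

lemma exists_cls (k m b ρ : ℕ) (hk : 2 ≤ k) (hm : 3 * m + 1 = 4 ^ (k + 1)) (B : Finset ℕ)
    (hB : ∀ q ∈ B, q % 8 = 5) (hc : B.card = 2 ^ k - 2) : ∃ c, IsCls m b ρ B c := by
  have hm8 := m_mod k m (by omega) hm
  have heven : Even B.card := by
    rw [hc]
    obtain ⟨j, rfl⟩ : ∃ j, k = j + 1 := ⟨k - 1, by omega⟩
    rw [pow_succ]
    exact ⟨2 ^ j - 1, by omega⟩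
  have hP := prod_mod B hB heven
  have hcop : ∀ t : ℕ, t % 2 = 1 → t.Coprime (2 ^ (b + 3)) := by
    intro t ht
    apply Nat.Coprime.pow_right
    rw [Nat.coprime_comm, Nat.Prime.coprime_iff_not_dvd Nat.prime_two]
    omega
  obtain ⟨c, h1, h2, h3⟩ := exists_class (2 ^ (b + 3)) (8 * ρ + m) (∏ q ∈ B, q) Nat.one_le_two_pow
    (hcop _ (by omega)) (hcop _ (by omega))
  have h8 : (8 : ℕ) ∣ 2 ^ (b + 3) := by
    rw [pow_add]
    exact Dvd.intro_left _ rfl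
  have h4 : ((∏ q ∈ B, q) * c) % 8 = (8 * ρ + m) % 8 := by
    have := congrArg (fun t => t % 8) h3
    rwa [Nat.mod_mod_of_dvd _ h8, Nat.mod_mod_of_dvd _ h8] at this
  have h5 : c % 8 = 5 := by
    rw [Nat.mul_mod, hP, one_mul, Nat.mod_mod] at h4
    omega
  exact ⟨c, h1, by omega, h5, h3⟩

/-- the product of the primes is determined by the number -/
lemma pair_inj {B B' : Finset ℕ} {p p' z : ℕ} (hB : ∀ q ∈ B, q.Prime ∧ q ≤ z)
    (hB' : ∀ q ∈ B', q.Prime ∧ q ≤ z) (hp : p.Prime) (hp' : p'.Prime) (hz : z < p) (hz' : z < p')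
    (h : (∏ q ∈ B, q) * p = (∏ q ∈ B', q) * p') : B = B' ∧ p = p' := by
  have hdv : p ∣ (∏ q ∈ B', q) * p' := by rw [← h]; exact dvd_mul_left p _
  have hpp : p = p' := by
    rcases (Nat.Prime.dvd_mul hp).1 hdv with h1 | h1
    · obtain ⟨q, hq, hq2⟩ := (Prime.dvd_finsetProd_iff hp.prime _).1 h1
      have h2 := (Nat.prime_dvd_prime_iff_eq hp (hB' q hq).1).1 hq2
      have := (hB' q hq).2
      omega
    · exact (Nat.prime_dvd_prime_iff_eq hp hp').1 h1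
  refine ⟨?_, hpp⟩
  subst hpp
  have h1 : ∏ q ∈ B, q = ∏ q ∈ B', q := Nat.eq_of_mul_eq_mul_right hp.pos h
  have h2 := congrArg Nat.primeFactors h1
  rw [Nat.primeFactors_prod fun q hq => (hB q hq).1, Nat.primeFactors_prod fun q hq => (hB' q hq).1] at h2
  exact h2

/-- **the count of the odd values** -/
theorem odd_core (A : Finset ℕ) (hA : 0 ∈ A) (k m b ρ x y z : ℕ) (hk : 2 ≤ k)
    (hm : 3 * m + 1 = 4 ^ (k + 1)) (hb : b ≤ 2 * (k + 1)) (hmz : m ≤ z) (c : Finset ℕ → ℕ)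
    (hc : ∀ B ∈ powersetCard (2 ^ k - 2) (Q5 y z), IsCls m b ρ B (c B)) :
    ∑ B ∈ powersetCard (2 ^ k - 2) (Q5 y z), (GB A k b x z (c B) B).card ≤
      ((range (x + 1)).filter fun u => u % 2 ^ b = ρ % 2 ^ b ∧ Odd (psum A u)).card *
      (Nat.sqrt (24 * (x / 2 ^ (2 * (k + 1))) + 1) + 1) := by
  classical
  set 𝓑 := powersetCard (2 ^ k - 2) (Q5 y z) with h𝓑
  set T : Finset (Σ _ : Finset ℕ, ℕ) := 𝓑.sigma fun B => GB A k b x z (c B) B with hT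
  have hTc : T.card = ∑ B ∈ 𝓑, (GB A k b x z (c B) B).card := Finset.card_sigma _ _
  rw [← hTc]
  have hmem : ∀ t ∈ T, (∀ q ∈ t.1, q.Prime ∧ q ≤ z ∧ q % 8 = 5) ∧ t.1.card = 2 ^ k - 2 ∧
      IsCls m b ρ t.1 (c t.1) ∧ t.2 ∈ GB A k b x z (c t.1) t.1 := by
    rintro ⟨B, p⟩ ht
    rw [hT, mem_sigma] at ht
    obtain ⟨h1, h2⟩ := ht
    have h3 := mem_powersetCard.1 h1
    refine ⟨fun q hq => ?_, h3.2, hc B h1, h2⟩
    have h4 := h3.1 hq
    unfold Q5 at h4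
    rw [mem_filter, mem_Ioc] at h4
    exact ⟨h4.2.1, h4.1.2, h4.2.2⟩
  set N : (Σ _ : Finset ℕ, ℕ) → ℕ := fun t => (∏ q ∈ t.1, q) * t.2 with hN
  have hNp : ∀ t ∈ T, N t ≤ x ∧ z < N t ∧ N t % 2 ^ (b + 3) = (8 * ρ + m) % 2 ^ (b + 3) := by
    intro t ht
    obtain ⟨h1, h2, h3, h4⟩ := hmem t ht
    unfold GB at h4
    rw [mem_filter, mem_Icc] at h4
    obtain ⟨⟨h5, h6⟩, h7, h8, h9, -⟩ := h4
    have hpos : 0 < ∏ q ∈ t.1, q := Finset.prod_pos fun q hq => (h1 q hq).1.pos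
    refine ⟨?_, ?_, ?_⟩
    · rw [Nat.le_div_iff_mul_le hpos] at h6
      rw [hN]
      simp only
      rw [mul_comm]
      exact h6
    · rw [hN]
      exact lt_of_lt_of_le h9 (Nat.le_mul_of_pos_left _ hpos)
    · rw [← h3.2.2.2, hN]
      simp only
      rw [Nat.mul_mod, h8, ← Nat.mod_eq_of_lt h3.1, ← Nat.mul_mod, Nat.mod_eq_of_lt h3.1]
  have h8 : (8 : ℕ) ∣ 2 ^ (b + 3) := by
    rw [pow_add]
    exact Dvd.intro_left _ rfl
  have hN8 : ∀ t ∈ T, ∃ n, N t = 8 * n + m ∧ n % 2 ^ b = ρ % 2 ^ b := by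
    intro t ht
    obtain ⟨h1, h2, h3⟩ := hNp t ht
    have h4 : N t ≡ 8 * ρ + m [MOD 2 ^ (b + 3)] := h3
    have h5 : m ≡ N t [MOD 8] := by
      have := (h4.of_dvd h8).symm
      have h6 : 8 * ρ + m ≡ m [MOD 8] := by
        unfold Nat.ModEq
        omega
      exact h6.symm.trans this
    obtain ⟨n, hn⟩ := (Nat.modEq_iff_dvd' (by omega)).1 h5
    refine ⟨n, by omega, ?_⟩
    have h6 : N t = 8 * n + m := by omega
    rw [h6] at h4
    have h7 : 8 * n ≡ 8 * ρ [MOD 2 ^ (b + 3)] := Nat.ModEq.add_right_cancel' m h4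
    have h9 : (2 : ℕ) ^ (b + 3) = 8 * 2 ^ b := by rw [pow_add]; ring
    rw [h9] at h7
    exact Nat.ModEq.mul_left_cancel' (by norm_num) h7
  choose! g hg using hN8
  have hinj : ∀ t ∈ T, ∀ t' ∈ T, g t = g t' → t = t' := by
    intro t ht t' ht' h
    have h1 : N t = N t' := by rw [(hg t ht).1, (hg t' ht').1, h]
    obtain ⟨a1, a2, a3, a4⟩ := hmem t ht
    obtain ⟨b1, b2, b3, b4⟩ := hmem t' ht'
    unfold GB at a4 b4
    rw [mem_filter] at a4 b4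
    obtain ⟨h2, h3⟩ := pair_inj (fun q hq => ⟨(a1 q hq).1, (a1 q hq).2.1⟩)
      (fun q hq => ⟨(b1 q hq).1, (b1 q hq).2.1⟩) a4.2.1 b4.2.1 a4.2.2.2.1 b4.2.2.2.1 h1
    exact Sigma.ext h2 (heq_of_eq h3)
  have hcardT : T.card = (T.image g).card := by
    rw [Finset.card_image_of_injOn]
    intro t ht t' ht' h
    exact hinj t ht t' ht' h
  rw [hcardT]
  apply card_le_mul (fun u => Odd (psum A u)) (2 * (k + 1)) b ρ x hb
  intro n hn
  rw [mem_image] at hn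
  obtain ⟨t, ht, rfl⟩ := hn
  obtain ⟨h1, h2, h3⟩ := hNp t ht
  obtain ⟨h4, h5⟩ := hg t ht
  obtain ⟨a1, a2, a3, a4⟩ := hmem t ht
  unfold GB at a4
  rw [mem_filter] at a4
  obtain ⟨a5, a6, a7, a8, a9⟩ := a4
  refine ⟨by omega, h5, ?_⟩
  have hpB : t.2 ∉ t.1 := fun h => by
    have := (a1 _ h).2.1
    omega
  have hp8 : t.2 % 8 = 5 := by
    have h6 : t.2 % 2 ^ (b + 3) % 8 = t.2 % 8 := Nat.mod_mod_of_dvd _ h8
    rw [a7] at h6
    rw [← h6]
    exact a3.2.2.1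
  have hone : PowerSeries.coeff (N t) (Db ^ m) = 1 := by
    have h6 := one (k + 1) m (by omega) hm (insert t.2 t.1) (by
      intro q hq
      rw [mem_insert] at hq
      rcases hq with rfl | hq
      · exact ⟨a6, hp8⟩
      · exact ⟨(a1 q hq).1, (a1 q hq).2.2⟩) (by
      rw [Finset.card_insert_of_notMem hpB, a2]
      have : 2 ^ 2 ≤ 2 ^ k := Nat.pow_le_pow_right (by norm_num) hk
      simp only [Nat.add_sub_cancel]
      omega)
    rw [Finset.prod_insert hpB, mul_comm] at h6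
    exact h6
  have hsum : PowerSeries.coeff (g t) (PA A * f1 ^ (2 ^ (2 * (k + 1)))) = 1 := by
    rw [coeff_PA_mul A (k + 1) m (g t) hm]
    have h0 : 0 ∈ A.filter (· ≤ g t) := by
      rw [mem_filter]
      exact ⟨hA, Nat.zero_le _⟩
    rw [← Finset.add_sum_erase _ _ h0, Nat.sub_zero, ← h4, hone]
    have h6 : ∑ a ∈ (A.filter (· ≤ g t)).erase 0, PowerSeries.coeff (8 * (g t - a) + m) (Db ^ m) = 0 := by
      refine Finset.sum_eq_zero fun a ha => ?_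
      rw [mem_erase, mem_filter] at ha
      obtain ⟨h7, h9, h10⟩ := ha
      apply van k m _ hm
      have h11 : 8 * (g t - a) + m = N t - 8 * a := by omega
      rw [h11]
      have h12 : 0 < m := by
        have := m_mod k m (by omega) hm
        omega
      exact a9 a h9 h7 (by
        have : N t = (∏ q ∈ t.1, q) * t.2 := rfl
        omega)
    rw [h6, add_zero]
  obtain ⟨u, v, h13, h14, h15⟩ := pair1 (PA A) (2 * (k + 1)) (g t) (by
    rw [hsum]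
    exact one_ne_zero)
  exact ⟨u, v, h13, (odd_iff A u).1 h14, h15⟩

end Pool.Agent.Q132.EP
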