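import Pool.Agent.Q132.EP.OddA
import Pool.Agent.H307R2.OP.ES

set_option autoImplicit false

/-!
# Odd values of the patterns: the good primes for a given product
-/

namespace Pool.Agent.Q132.EP

open Finset

/-- the factor in the sieve bound -/
noncomputable def G5 (y z R : ℕ) : ℝ :=
  50 * Real.exp (-(V y z + S5 y z)) * ∑ j ∈ range R, S5 y z ^ j / (j.factorial : ℝ)

lemma gb_split (hS : S_SIE) (A : Finset ℕ) (k b x y z c K D : ℕ) (B : Finset ℕ) (hy : 64 ≤ y)
    (hyz : y ≤ z) (hB : ∀ q ∈ B, q ∈ Q5 y z) (hlog : 2 * (B.card + 2 ^ k) + Nat.log 2 x ≤ y)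
    (hD : 1 ≤ D) (hzD : z ^ K ≤ D) (hK : 8 * (V y z + S5 y z) + 8 ≤ K) :
    (((Icc 1 (x / ∏ q ∈ B, q)).filter fun p => p.Prime ∧ p % 2 ^ (b + 3) = c).card : ℝ) ≤
      (GB A k b x z c B).card + z + A.card *
        (((x / ∏ q ∈ B, q : ℕ) : ℝ) * (G5 y z (2 ^ k) + 2 / y) +
          ((2 : ℝ) ^ k * (z : ℝ) ^ (2 ^ k) * (50 + (D : ℝ) ^ 6) + z)) := by
  classical
  set Q := ∏ q ∈ B, q with hQ
  set U := x / Q with hU
  set bad : ℕ → Finset ℕ := fun a => (range (U + 1)).filter fun u => u.Prime ∧ z < u ∧ 8 * a < Q * u ∧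
    cnt5 (Q * u - 8 * a) < 2 ^ k with hbad
  set err : ℝ := (U : ℝ) * (G5 y z (2 ^ k) + 2 / y) +
    ((2 : ℝ) ^ k * (z : ℝ) ^ (2 ^ k) * (50 + (D : ℝ) ^ 6) + z) with herr
  have hQpos : 0 < Q := Finset.prod_pos fun q hq => by
    have := hB q hq
    unfold Q5 at this
    rw [mem_filter] at this
    exact this.2.1.pos
  have hG0 : 0 ≤ G5 y z (2 ^ k) := by
    unfold G5
    have : 0 ≤ S5 y z := Finset.sum_nonneg fun _ _ => by positivity
    positivity
  have herr0 : 0 ≤ err := by positivity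
  have hsub : (Icc 1 U).filter (fun p => p.Prime ∧ p % 2 ^ (b + 3) = c) ⊆
      GB A k b x z c B ∪ (Icc 1 z ∪ (A.erase 0).biUnion bad) := by
    intro p hp
    rw [mem_filter, mem_Icc] at hp
    rw [mem_union, mem_union, mem_Icc, mem_biUnion]
    by_cases h1 : p ≤ z
    · exact Or.inr (Or.inl ⟨hp.1.1, h1⟩)
    · by_cases h2 : ∀ a ∈ A, a ≠ 0 → 8 * a < Q * p → 2 ^ k ≤ cnt5 (Q * p - 8 * a)
      · left
        unfold GB
        rw [mem_filter, mem_Icc]
        exact ⟨hp.1, hp.2.1, hp.2.2, by omega, h2⟩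
      · push Not at h2
        obtain ⟨a, ha, ha0, h3, h4⟩ := h2
        right; right
        refine ⟨a, mem_erase.2 ⟨ha0, ha⟩, ?_⟩
        rw [hbad]
        simp only [mem_filter, mem_range]
        exact ⟨by omega, hp.2.1, by omega, h3, h4⟩
  have hbadc : ∀ a ∈ A.erase 0, ((bad a).card : ℝ) ≤ err := by
    intro a ha
    rw [mem_erase] at ha
    by_cases hax : 8 * a < x
    · have hl : Nat.log 2 (8 * a) ≤ Nat.log 2 x := Nat.log_mono_right hax.le
      have h1 := hS B (8 * a) U y z K D (2 ^ k) hy hyz (by omega) hB (by omega) hD hzD hK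
      refine h1.trans (le_of_eq ?_)
      rw [herr]
      unfold G5
      push_cast
      ring
    · have h1 : bad a = ∅ := by
        rw [hbad]
        simp only [Finset.filter_eq_empty_iff, mem_range]
        rintro u hu ⟨-, -, h3, -⟩
        have h4 : Q * u ≤ x := by
          calc Q * u ≤ Q * U := Nat.mul_le_mul_left _ (by omega)
            _ ≤ x := Nat.mul_div_le x Q
        omega
      rw [h1, card_empty]
      exact_mod_cast herr0
  have hcard := (card_le_card hsub).trans (card_union_le _ _)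
  have hcard2 : (Icc 1 z ∪ (A.erase 0).biUnion bad).card ≤ z + ∑ a ∈ A.erase 0, (bad a).card := by
    refine (card_union_le _ _).trans ?_
    have h1 : (Icc 1 z).card = z := by rw [Nat.card_Icc]; omega
    rw [h1]
    exact Nat.add_le_add_left card_biUnion_le _
  have h1 : (((Icc 1 U).filter (fun p => p.Prime ∧ p % 2 ^ (b + 3) = c)).card : ℝ) ≤
      (GB A k b x z c B).card + (z + ∑ a ∈ A.erase 0, ((bad a).card : ℝ)) := by
    have := hcard.trans (Nat.add_le_add_left hcard2 _)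
    exact_mod_cast this
  have h2 : ∑ a ∈ A.erase 0, ((bad a).card : ℝ) ≤ A.card * err := by
    calc ∑ a ∈ A.erase 0, ((bad a).card : ℝ) ≤ ∑ _a ∈ A.erase 0, err := sum_le_sum hbadc
      _ = ((A.erase 0).card : ℝ) * err := by rw [sum_const, nsmul_eq_mul]
      _ ≤ A.card * err := by
          apply mul_le_mul_of_nonneg_right _ herr0
          exact_mod_cast Finset.card_le_card (erase_subset _ _)
  linarith

/-- the sum over the products -/
lemma sum_low (y z k1 : ℕ) (hy : 1 ≤ y) (h : (k1 : ℝ) * (1 / y) ≤ S5 y z) :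
    (S5 y z - k1 * (1 / y)) ^ k1 / (k1.factorial : ℝ) ≤
      ∑ B ∈ powersetCard k1 (Q5 y z), ∏ q ∈ B, (1 : ℝ) / q := by
  have hES := Pool.Agent.H307R2.OP.es
  refine hES.low (Q5 y z) (fun q => 1 / (q : ℝ)) k1 (1 / y) (by positivity) (fun q hq => ?_) h
  unfold Q5 at hq
  rw [mem_filter, mem_Ioc] at hq
  refine ⟨by positivity, ?_⟩
  apply one_div_le_one_div_of_le
  · exact_mod_cast hy
  · exact_mod_cast hq.1.1.le

end Pool.Agent.Q132.EP
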