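import Pool.Agent.Q132.EP.OddB
import Pool.Agent.Q132.EP.EvenAsy

set_option autoImplicit false

/-!
# Odd values of the patterns: the parameters
-/

namespace Pool.Agent.Q132.EP

open Finset Filter Topology

noncomputable def yy (x : ℕ) : ℕ := ⌈Real.log x ^ 3⌉₊

noncomputable def zz (x : ℕ) : ℕ := ⌊Real.exp (Real.log x / (2000 * LL x))⌋₊

noncomputable def DD (x : ℕ) : ℕ := ⌊Real.exp (Real.log x / 100)⌋₊

noncomputable def KK (x : ℕ) : ℕ := ⌈17 * LL x⌉₊

/-- `x` is large -/
structure Big (x : ℕ) : Prop where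
  T : 10 ^ 6 ≤ LL x
  L : 10 ^ 4 * LL x ^ 3 ≤ Real.log x

lemma ev_pow (n : ℕ) (c : ℝ) (hc : 0 < c) : ∀ᶠ x : ℕ in atTop, c * LL x ^ n ≤ Real.log x := by
  have h1 : Tendsto (fun t : ℝ => Real.log t ^ n / (1 * t + 0)) atTop (𝓝 0) :=
    Real.tendsto_pow_log_div_mul_add_atTop 1 0 n one_ne_zero
  have h2 := h1.comp log_tend
  filter_upwards [h2.eventually (gt_mem_nhds (show (0 : ℝ) < 1 / c by positivity)),
    log_tend.eventually_ge_atTop 1] with x hx hx1
  simp only [Function.comp, one_mul, add_zero] at hx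
  rw [div_lt_iff₀ (by linarith), one_div_mul_eq_div, lt_div_iff₀ hc] at hx
  unfold LL
  linarith

lemma ev_Big : ∀ᶠ x : ℕ in atTop, Big x := by
  filter_upwards [LL_tend.eventually_ge_atTop (10 ^ 6), ev_pow 3 (10 ^ 4) (by norm_num)] with x h1 h2
  exact ⟨h1, h2⟩

namespace Big

variable {x : ℕ} (h : Big x)
include h

lemma Tpos : 0 < LL x := lt_of_lt_of_le (by norm_num) h.T

lemma Lpos : 0 < Real.log x := lt_of_lt_of_le (by have := h.Tpos; positivity) h.L

lemma LT : Real.exp (LL x) = Real.log x := by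
  unfold LL
  exact Real.exp_log h.Lpos

lemma Lbig : 10 ^ 10 * LL x ≤ Real.log x := by
  refine le_trans ?_ h.L
  have h1 := h.T
  have h2 : LL x ^ 3 = LL x * LL x * LL x := by ring
  rw [h2]
  have h3 : (10 : ℝ) ^ 6 * 1 ≤ LL x * LL x := by nlinarith
  have h4 := h.Tpos
  nlinarith

lemma xpos : (0 : ℝ) < x := by
  by_contra hcon
  have h1 : (x : ℝ) = 0 := le_antisymm (not_lt.1 hcon) (Nat.cast_nonneg _)
  have h2 := h.Lpos
  rw [h1, Real.log_zero] at h2
  exact lt_irrefl _ h2

lemma xexp : Real.exp (Real.log x) = x := Real.exp_log h.xpos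

/-- the logarithm of the sieving limit -/
lemma w_low : 5 * LL x ^ 2 ≤ Real.log x / (2000 * LL x) := by
  rw [le_div_iff₀ (by have := h.Tpos; positivity)]
  have := h.L
  nlinarith

lemma z_up : (zz x : ℝ) ≤ Real.exp (Real.log x / (2000 * LL x)) := Nat.floor_le (Real.exp_pos _).le

lemma z_low : Real.exp (Real.log x / (2000 * LL x)) - 1 ≤ zz x := (Nat.sub_one_lt_floor _).le

lemma y_low : Real.log x ^ 3 ≤ yy x := Nat.le_ceil _

lemma y_up : (yy x : ℝ) ≤ 2 * Real.log x ^ 3 := by
  have h1 : (yy x : ℝ) < Real.log x ^ 3 + 1 := Nat.ceil_lt_add_one (by have := h.Lpos; positivity)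
  have h2 : 1 ≤ Real.log x := by
    have := h.Lbig
    have := h.T
    linarith
  have h3 : 1 ≤ Real.log x ^ 3 := one_le_pow₀ h2
  linarith

lemma L3 : Real.log x ^ 3 = Real.exp (3 * LL x) := by
  rw [← h.LT, ← Real.exp_nat_mul]
  norm_num

lemma y64 : 64 ≤ yy x := by
  have h1 := h.y_low
  have h2 : (64 : ℝ) ≤ Real.log x := by
    have := h.Lbig
    have := h.T
    linarith
  have h3 : (64 : ℝ) ≤ Real.log x ^ 3 := by nlinarith [pow_le_pow_left₀ (by norm_num) h2 3]
  exact_mod_cast h3.trans h1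

lemma yz : yy x ≤ zz x := by
  have h1 := h.y_up
  have h2 := h.z_low
  have h3 := h.w_low
  have hT := h.T
  have h4 : Real.exp (3 * LL x + 3) ≤ Real.exp (Real.log x / (2000 * LL x)) := by
    rw [Real.exp_le_exp]
    nlinarith
  have h5 : Real.exp (3 * LL x + 3) = Real.exp (3 * LL x) * Real.exp 3 := Real.exp_add _ _
  have h6 : (4 : ℝ) ≤ Real.exp 3 := by
    have := Real.add_one_le_exp (3 : ℝ)
    linarith
  rw [h.L3] at h1
  have h7 : (1 : ℝ) ≤ Real.exp (3 * LL x) := Real.one_le_exp (by linarith)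
  have h8 : (yy x : ℝ) ≤ zz x := by nlinarith
  exact_mod_cast h8

lemma logz_low : Real.log x / (4000 * LL x) ≤ Real.log (zz x) := by
  set w := Real.log x / (2000 * LL x) with hw
  have h1 := h.z_low
  rw [← hw] at h1
  have h3 := h.w_low
  rw [← hw] at h3
  have hT := h.T
  have hw2 : 2 ≤ w := by nlinarith
  have h4 : Real.exp (w - 1) ≤ zz x := by
    refine le_trans ?_ h1
    have h5 : Real.exp w = Real.exp (w - 1) * Real.exp 1 := by
      rw [← Real.exp_add]
      congr 1
      ring
    have h6 : (2 : ℝ) ≤ Real.exp 1 := by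
      have := Real.add_one_le_exp (1 : ℝ)
      linarith
    have h7 : (1 : ℝ) ≤ Real.exp (w - 1) := Real.one_le_exp (by linarith)
    nlinarith
  have h5 : w - 1 ≤ Real.log (zz x) := by
    rw [← Real.log_exp (w - 1)]
    exact Real.log_le_log (Real.exp_pos _) h4
  have h6 : Real.log x / (4000 * LL x) = w / 2 := by
    rw [hw, div_div]
    congr 1
    ring
  rw [h6]
  linarith

lemma logy_up : Real.log (yy x) ≤ 4 * LL x := by
  have h1 := h.y_up
  rw [h.L3] at h1
  have hy : (0 : ℝ) < yy x := by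
    have := h.y64
    exact_mod_cast (by omega : 0 < yy x)
  have h2 : Real.log (yy x) ≤ Real.log (2 * Real.exp (3 * LL x)) := Real.log_le_log hy h1
  rw [Real.log_mul (by norm_num) (Real.exp_pos _).ne', Real.log_exp] at h2
  have h3 := Real.log_two_lt_d9
  have hT := h.T
  linarith

/-- the difference of the double logarithms -/
lemma delta : LL x - Real.log (16000 * LL x ^ 2) ≤
    Real.log (Real.log (zz x)) - Real.log (Real.log (yy x)) := by
  have hT := h.Tpos
  have hL := h.Lpos
  have h1 : Real.log (Real.log x / (4000 * LL x)) ≤ Real.log (Real.log (zz x)) :=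
    Real.log_le_log (by positivity) h.logz_low
  have h2 : Real.log (Real.log (yy x)) ≤ Real.log (4 * LL x) := by
    apply Real.log_le_log _ h.logy_up
    apply Real.log_pos
    have := h.y64
    exact_mod_cast (by omega : 1 < yy x)
  have h3 : Real.log (Real.log x / (4000 * LL x)) = LL x - Real.log (4000 * LL x) :=
    Real.log_div hL.ne' (by positivity)
  have h4 : Real.log (16000 * LL x ^ 2) = Real.log (4000 * LL x) + Real.log (4 * LL x) := by
    rw [← Real.log_mul (by positivity) (by positivity)]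
    congr 1
    ring
  rw [h4]
  linarith

lemma S5_le_V : S5 (yy x) (zz x) ≤ V (yy x) (zz x) := by
  unfold S5 V Q5
  apply Finset.sum_le_sum_of_subset_of_nonneg
  · intro q hq
    rw [mem_filter] at *
    exact ⟨hq.1, hq.2.1⟩
  · intro _ _ _
    positivity

/-- the upper bound for the mass -/
lemma V_up {C : ℝ} (hC : |V (yy x) (zz x) - (Real.log (Real.log (zz x)) - Real.log (Real.log (yy x)))| ≤ C) :
    V (yy x) (zz x) ≤ LL x + C := by
  have h1 := (abs_le.1 hC).2
  have h2 : 0 ≤ Real.log (Real.log (yy x)) := by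
    apply Real.log_nonneg
    rw [← Real.log_exp 1]
    apply Real.log_le_log (Real.exp_pos _)
    have h3 : Real.exp 1 ≤ 3 := by
      have := Real.exp_one_lt_d9
      linarith
    refine h3.trans ?_
    have := h.y64
    exact_mod_cast (by omega : 3 ≤ yy x)
  have h3 : Real.log (Real.log (zz x)) ≤ LL x := by
    have h4 : Real.log (zz x) ≤ Real.log x := by
      have hz : (0 : ℝ) < zz x := by
        have := h.y64
        have := h.yz
        exact_mod_cast (by omega : 0 < zz x)
      have h5 : Real.log (zz x) ≤ Real.log x / (2000 * LL x) := by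
        rw [← Real.log_exp (Real.log x / (2000 * LL x))]
        exact Real.log_le_log hz h.z_up
      refine h5.trans (div_le_self h.Lpos.le ?_)
      have := h.T
      linarith
    apply Real.log_le_log _ h4
    apply Real.log_pos
    have := h.y64
    have := h.yz
    exact_mod_cast (by omega : 1 < zz x)
  linarith

lemma KK_up : (KK x : ℝ) ≤ 18 * LL x := by
  have h1 : (KK x : ℝ) < 17 * LL x + 1 := Nat.ceil_lt_add_one (by have := h.Tpos; positivity)
  have := h.T
  linarith

lemma DD_up : (DD x : ℝ) ≤ Real.exp (Real.log x / 100) := Nat.floor_le (Real.exp_pos _).le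

/-- powers of the sieving limit -/
lemma z_pow (n : ℕ) (c : ℝ) (hn : (n : ℝ) ≤ c * LL x) : (zz x : ℝ) ^ n ≤ Real.exp (c / 2000 * Real.log x) := by
  have hT := h.Tpos
  have hL := h.Lpos
  calc (zz x : ℝ) ^ n ≤ (Real.exp (Real.log x / (2000 * LL x))) ^ n :=
        pow_le_pow_left₀ (Nat.cast_nonneg _) h.z_up n
    _ = Real.exp (n * (Real.log x / (2000 * LL x))) := (Real.exp_nat_mul _ _).symm
    _ ≤ Real.exp (c / 2000 * Real.log x) := by
        rw [Real.exp_le_exp]
        calc (n : ℝ) * (Real.log x / (2000 * LL x)) ≤ (c * LL x) * (Real.log x / (2000 * LL x)) :=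
              mul_le_mul_of_nonneg_right hn (by positivity)
          _ = c / 2000 * Real.log x := by field_simp

lemma zKD : zz x ^ KK x ≤ DD x := by
  have h1 := h.z_pow (KK x) 18 h.KK_up
  have h2 : Real.exp (Real.log x / 100) - 1 ≤ DD x := (Nat.sub_one_lt_floor _).le
  have h3 : Real.exp (18 / 2000 * Real.log x) ≤ Real.exp (Real.log x / 100) - 1 := by
    have h4 : Real.exp (Real.log x / 100) =
        Real.exp (18 / 2000 * Real.log x) * Real.exp (1 / 1000 * Real.log x) := by
      rw [← Real.exp_add]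
      congr 1
      ring
    have h5 : (2 : ℝ) ≤ Real.exp (1 / 1000 * Real.log x) := by
      have h6 := Real.add_one_le_exp (1 / 1000 * Real.log x)
      have := h.Lbig
      have := h.T
      linarith
    have h7 : (1 : ℝ) ≤ Real.exp (18 / 2000 * Real.log x) :=
      Real.one_le_exp (by have := h.Lpos; positivity)
    rw [h4]
    nlinarith
  have h8 : ((zz x ^ KK x : ℕ) : ℝ) ≤ DD x := by
    push_cast
    linarith
  exact_mod_cast h8

lemma D1 : 1 ≤ DD x := by
  have h1 : 1 ≤ zz x ^ KK x := Nat.one_le_pow _ _ (by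
    have := h.y64
    have := h.yz
    omega)
  exact h1.trans h.zKD

end Big

/-- the truncated exponential sum -/
lemma sum_fact (S : ℝ) (hS : 0 ≤ S) (R : ℕ) :
    ∑ j ∈ range R, S ^ j / (j.factorial : ℝ) ≤ 100 ^ R * Real.exp (S / 100) := by
  have h1 : ∀ j ∈ range R, S ^ j / (j.factorial : ℝ) ≤ 100 ^ R * ((S / 100) ^ j / (j.factorial : ℝ)) := by
    intro j hj
    rw [mem_range] at hj
    have h2 : S ^ j = 100 ^ j * (S / 100) ^ j := by
      rw [← mul_pow]
      congr 1
      ring
    rw [h2, mul_div_assoc]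
    apply mul_le_mul_of_nonneg_right _ (by positivity)
    exact pow_le_pow_right₀ (by norm_num) hj.le
  refine (Finset.sum_le_sum h1).trans ?_
  rw [← Finset.mul_sum]
  apply mul_le_mul_of_nonneg_left _ (by positivity)
  exact Real.sum_le_exp_of_nonneg (by positivity) R

end Pool.Agent.Q132.EP
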