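import Pool.Agent.Q132.EP.OddC

set_option autoImplicit false
set_option linter.unusedSectionVars false

/-!
# Odd values of the patterns: the count
-/

namespace Pool.Agent.Q132.EP

open Finset Filter Topology

/-- the facts on the primes at `x`, `x` large -/
structure Big2 (C : ℝ) (x : ℕ) : Prop extends Big x where
  C0 : 0 < C
  mas : |V (yy x) (zz x) - (Real.log (Real.log (zz x)) - Real.log (Real.log (yy x)))| ≤ C
  mas5 : (1 / 6) * (Real.log (Real.log (zz x)) - Real.log (Real.log (yy x))) - C ≤ S5 (yy x) (zz x)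
  e1 : Real.log (16000 * LL x ^ 2) / 6 + C ≤ LL x / 42
  e2 : 3200000 * Real.exp C * LL x ^ 3 * Real.exp (-(0.067 * LL x)) ≤ 1
  e3 : 16 * C + 8 ≤ LL x

namespace Big2

variable {C : ℝ} {x : ℕ} (h : Big2 C x)
include h

lemma S_low : LL x / 7 ≤ S5 (yy x) (zz x) := by
  have h1 := h.mas5
  have h2 := h.toBig.delta
  have h3 := h.e1
  linarith

lemma expV : Real.exp (-V (yy x) (zz x)) ≤ 16000 * Real.exp C * LL x ^ 2 / Real.log x := by
  have h1 := (abs_le.1 h.mas).1
  have h2 := h.toBig.delta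
  have hT := h.toBig.Tpos
  have h3 : Real.exp (-V (yy x) (zz x)) ≤ Real.exp (C + Real.log (16000 * LL x ^ 2) + -LL x) := by
    rw [Real.exp_le_exp]
    linarith
  rw [Real.exp_add, Real.exp_add, Real.exp_log (by positivity), Real.exp_neg (LL x), h.toBig.LT] at h3
  refine h3.trans (le_of_eq ?_)
  ring

lemma G_up (R : ℕ) (hR : (R : ℝ) ≤ LL x / 200) :
    G5 (yy x) (zz x) R ≤ 800000 * Real.exp C * LL x ^ 2 / Real.log x * Real.exp (-(0.117 * LL x)) := by
  have hT := h.toBig.Tpos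
  have hL := h.toBig.Lpos
  set S := S5 (yy x) (zz x) with hS
  have hS0 : 0 ≤ S := S5_nonneg _ _
  have h1 := sum_fact S hS0 R
  have h2 : (100 : ℝ) ^ R ≤ Real.exp (0.0235 * LL x) := by
    have h3 : (100 : ℝ) ^ R = Real.exp (R * Real.log 100) := by
      rw [Real.exp_nat_mul, Real.exp_log (by norm_num)]
    rw [h3, Real.exp_le_exp]
    calc (R : ℝ) * Real.log 100 ≤ (LL x / 200) * 4.7 :=
          mul_le_mul hR log100 (Real.log_nonneg (by norm_num)) (by positivity)
      _ = 0.0235 * LL x := by ring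
  have h3 : G5 (yy x) (zz x) R ≤ 50 * (Real.exp (-V (yy x) (zz x)) * Real.exp (-S)) *
      (Real.exp (0.0235 * LL x) * Real.exp (S / 100)) := by
    unfold G5
    rw [← hS, neg_add, Real.exp_add]
    apply mul_le_mul_of_nonneg_left _ (by positivity)
    exact h1.trans (mul_le_mul_of_nonneg_right h2 (Real.exp_pos _).le)
  have h4 : Real.exp (-S) * (Real.exp (0.0235 * LL x) * Real.exp (S / 100)) ≤
      Real.exp (-(0.117 * LL x)) := by
    rw [← Real.exp_add, ← Real.exp_add, Real.exp_le_exp]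
    have := h.S_low
    rw [← hS] at this
    linarith
  have h5 := h.expV
  calc G5 (yy x) (zz x) R ≤ 50 * (Real.exp (-V (yy x) (zz x)) * Real.exp (-S)) *
      (Real.exp (0.0235 * LL x) * Real.exp (S / 100)) := h3
    _ = 50 * Real.exp (-V (yy x) (zz x)) *
        (Real.exp (-S) * (Real.exp (0.0235 * LL x) * Real.exp (S / 100))) := by ring
    _ ≤ 50 * (16000 * Real.exp C * LL x ^ 2 / Real.log x) * Real.exp (-(0.117 * LL x)) :=
        mul_le_mul (mul_le_mul_of_nonneg_left h5 (by norm_num)) h4 (by positivity) (by positivity)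
    _ = _ := by ring

lemma K_ok : 8 * (V (yy x) (zz x) + S5 (yy x) (zz x)) + 8 ≤ KK x := by
  have h1 := h.toBig.V_up h.mas
  have h2 := h.toBig.S5_le_V
  have h3 : 17 * LL x ≤ KK x := Nat.le_ceil _
  have h4 := h.e3
  linarith

/-- the logarithm is smaller than a small power of `x` -/
lemma L_exp : Real.log x ≤ Real.exp (0.001 * Real.log x) := by
  have hL := h.toBig.Lpos
  have h1 := Real.quadratic_le_exp_of_nonneg (show 0 ≤ 0.001 * Real.log x by positivity)
  have h2 := h.toBig.Lbig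
  have h3 := h.toBig.T
  nlinarith

lemma T_le_L : LL x ≤ Real.log x := by
  have := h.toBig.Lbig
  have := h.toBig.Tpos
  linarith

lemma z_exp : (zz x : ℝ) ≤ Real.exp (0.001 * Real.log x) := by
  refine h.toBig.z_up.trans ?_
  rw [Real.exp_le_exp, div_le_iff₀ (by have := h.toBig.Tpos; positivity)]
  have h1 := h.toBig.T
  have h2 := h.toBig.Lpos
  nlinarith

/-- the error term -/
lemma err_up (k : ℕ) (hk : (2 : ℝ) ^ k ≤ LL x / 200) :
    (2 : ℝ) ^ k * (zz x : ℝ) ^ (2 ^ k) * (50 + (DD x : ℝ) ^ 6) + zz x ≤ Real.exp (0.07 * Real.log x) := by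
  have hL := h.toBig.Lpos
  set E := Real.exp (0.001 * Real.log x) with hE
  have hE1 : Real.log x ≤ E := h.L_exp
  have hE0 : 0 < E := Real.exp_pos _
  have hbig : (10 : ℝ) ^ 6 ≤ E := by
    have := h.toBig.Lbig
    have := h.toBig.T
    linarith
  have h1 : (2 : ℝ) ^ k ≤ E := by
    have := h.T_le_L
    have := h.toBig.Tpos
    linarith
  have h2 : (zz x : ℝ) ^ (2 ^ k) ≤ E := by
    have h3 := h.toBig.z_pow (2 ^ k) (1 / 200) (by push_cast; linarith)
    refine h3.trans ?_
    rw [hE, Real.exp_le_exp]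
    nlinarith
  have h3 : (DD x : ℝ) ^ 6 ≤ E ^ 60 := by
    calc (DD x : ℝ) ^ 6 ≤ (Real.exp (Real.log x / 100)) ^ 6 :=
          pow_le_pow_left₀ (Nat.cast_nonneg _) DD_up' 6
      _ = E ^ 60 := by
          rw [hE, ← Real.exp_nat_mul, ← Real.exp_nat_mul]
          congr 1
          push_cast
          ring
  have h4 : Real.exp (0.07 * Real.log x) = E ^ 70 := by
    rw [hE, ← Real.exp_nat_mul]
    congr 1
    push_cast
    ring
  rw [h4]
  have hE1' : 1 ≤ E := by linarith
  have h5 : (50 : ℝ) + (DD x : ℝ) ^ 6 ≤ E ^ 61 := by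
    have h6 : (1 : ℝ) ≤ E ^ 60 := one_le_pow₀ hE1'
    have h7 : E ^ 61 = E ^ 60 * E := pow_succ _ _
    rw [h7]
    nlinarith
  have h6 : (2 : ℝ) ^ k * (zz x : ℝ) ^ (2 ^ k) * (50 + (DD x : ℝ) ^ 6) ≤ E * E * E ^ 61 := by
    refine mul_le_mul (mul_le_mul h1 h2 (by positivity) hE0.le) h5 (by positivity) (by positivity)
  have h7 : E * E * E ^ 61 = E ^ 63 := by ring
  have h8 : (zz x : ℝ) ≤ E ^ 63 := by
    refine h.z_exp.trans ?_
    exact le_self_pow₀ hE1' (by norm_num)
  have h9 : E ^ 63 + E ^ 63 ≤ E ^ 64 := by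
    have : E ^ 64 = E ^ 63 * E := pow_succ _ _
    rw [this]
    have h10 : (0 : ℝ) < E ^ 63 := by positivity
    nlinarith
  have h10 : E ^ 64 ≤ E ^ 70 := pow_le_pow_right₀ hE1' (by norm_num)
  linarith
where
  DD_up' : (DD x : ℝ) ≤ Real.exp (Real.log x / 100) := Nat.floor_le (Real.exp_pos _).le

end Big2

end Pool.Agent.Q132.EP
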