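import Pool.Agent.Q132.EP.OddD

set_option autoImplicit false
set_option linter.unusedSectionVars false

/-!
# Odd values of the patterns: the lower bound for one product
-/

namespace Pool.Agent.Q132.EP

open Finset Filter Topology

namespace Big2

variable {C : ℝ} {x : ℕ} (h : Big2 C x)
include h

/-- the product of at most `LL x / 200` primes up to `z` -/
lemma prod_up (B : Finset ℕ) (hB : ∀ q ∈ B, q ∈ Q5 (yy x) (zz x)) (hc : (B.card : ℝ) ≤ LL x / 200) :
    ((∏ q ∈ B, q : ℕ) : ℝ) ≤ Real.exp (0.001 * Real.log x) := by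
  have h1 : (∏ q ∈ B, q) ≤ zz x ^ B.card := by
    refine Finset.prod_le_pow_card _ _ _ fun q hq => ?_
    have := hB q hq
    unfold Q5 at this
    rw [mem_filter, mem_Ioc] at this
    exact this.1.2
  have h2 : ((∏ q ∈ B, q : ℕ) : ℝ) ≤ (zz x : ℝ) ^ B.card := by exact_mod_cast h1
  refine h2.trans ((h.toBig.z_pow B.card (1 / 200) (by linarith)).trans ?_)
  rw [Real.exp_le_exp]
  have := h.toBig.Lpos
  nlinarith

lemma prod_pos' (B : Finset ℕ) (hB : ∀ q ∈ B, q ∈ Q5 (yy x) (zz x)) : 0 < ∏ q ∈ B, q :=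
  Finset.prod_pos fun q hq => by
    have := hB q hq
    unfold Q5 at this
    rw [mem_filter] at this
    exact this.2.1.pos

lemma U_succ (B : Finset ℕ) (hB : ∀ q ∈ B, q ∈ Q5 (yy x) (zz x)) :
    (x : ℝ) ≤ (((x / ∏ q ∈ B, q : ℕ) : ℝ) + 1) * ((∏ q ∈ B, q : ℕ) : ℝ) := by
  have h0 := h.prod_pos' B hB
  set Q := ∏ q ∈ B, q with hQ
  have h1 : x ≤ (x / Q + 1) * Q := by
    have h2 := Nat.div_add_mod x Q
    have h3 := Nat.mod_lt x h0
    have h4 : (x / Q + 1) * Q = Q * (x / Q) + Q := by ring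
    omega
  exact_mod_cast h1

lemma U_low (B : Finset ℕ) (hB : ∀ q ∈ B, q ∈ Q5 (yy x) (zz x)) (hc : (B.card : ℝ) ≤ LL x / 200) :
    Real.exp (0.99 * Real.log x) ≤ ((x / ∏ q ∈ B, q : ℕ) : ℝ) := by
  have h1 := h.U_succ B hB
  have h2 := h.prod_up B hB hc
  set U := ((x / ∏ q ∈ B, q : ℕ) : ℝ) with hU
  have hU0 : 0 ≤ U := Nat.cast_nonneg _
  have h3 : (x : ℝ) ≤ (U + 1) * Real.exp (0.001 * Real.log x) :=
    h1.trans (mul_le_mul_of_nonneg_left h2 (by linarith))
  have h4 : Real.exp (0.999 * Real.log x) ≤ U + 1 := by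
    have h5 : Real.exp (0.999 * Real.log x) * Real.exp (0.001 * Real.log x) = x := by
      rw [← Real.exp_add, ← h.toBig.xexp]
      congr 1
      rw [Real.log_exp]
      ring
    have h6 : Real.exp (0.999 * Real.log x) * Real.exp (0.001 * Real.log x) ≤
        (U + 1) * Real.exp (0.001 * Real.log x) := by rw [h5]; exact h3
    exact le_of_mul_le_mul_right h6 (Real.exp_pos _)
  have h5 : Real.exp (0.999 * Real.log x) =
      Real.exp (0.99 * Real.log x) * Real.exp (0.009 * Real.log x) := by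
    rw [← Real.exp_add]
    congr 1
    ring
  have h6 : (2 : ℝ) ≤ Real.exp (0.009 * Real.log x) := by
    have h7 := Real.add_one_le_exp (0.009 * Real.log x)
    have := h.toBig.Lbig
    have := h.toBig.T
    linarith
  have h7 : (1 : ℝ) ≤ Real.exp (0.99 * Real.log x) :=
    Real.one_le_exp (by have := h.toBig.Lpos; positivity)
  rw [h5] at h4
  nlinarith

lemma U_half (B : Finset ℕ) (hB : ∀ q ∈ B, q ∈ Q5 (yy x) (zz x)) (hc : (B.card : ℝ) ≤ LL x / 200) :
    (x : ℝ) / 2 * ∏ q ∈ B, (1 : ℝ) / q ≤ ((x / ∏ q ∈ B, q : ℕ) : ℝ) := by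
  have h1 := h.U_succ B hB
  have h2 := h.U_low B hB hc
  have h0 := h.prod_pos' B hB
  have h3 : ∏ q ∈ B, (1 : ℝ) / q = 1 / ((∏ q ∈ B, q : ℕ) : ℝ) := by
    rw [Finset.prod_div_distrib, Finset.prod_const_one]
    push_cast
    rfl
  have h7 : (1 : ℝ) ≤ Real.exp (0.99 * Real.log x) :=
    Real.one_le_exp (by have := h.toBig.Lpos; positivity)
  set U := ((x / ∏ q ∈ B, q : ℕ) : ℝ) with hU
  rw [h3]
  have hQ0 : (0 : ℝ) < ((∏ q ∈ B, q : ℕ) : ℝ) := by exact_mod_cast h0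
  set Q := ((∏ q ∈ B, q : ℕ) : ℝ) with hQ
  rw [mul_one_div, div_le_iff₀ hQ0]
  nlinarith

lemma log_ok (k n : ℕ) (hk : (2 : ℝ) ^ k ≤ LL x / 200) (hn : (n : ℝ) ≤ LL x / 200) :
    2 * (n + 2 ^ k) + Nat.log 2 x ≤ yy x := by
  have h1 : (Nat.log 2 x : ℝ) ≤ Real.logb 2 x := by exact_mod_cast Real.natLog_le_logb x 2
  have h2 : Real.logb 2 x ≤ 2 * Real.log x := by
    unfold Real.logb
    rw [div_le_iff₀ (Real.log_pos (by norm_num))]
    have := Real.log_two_gt_d9
    have := h.toBig.Lpos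
    nlinarith
  have h3 := h.toBig.y_low
  have h4 := h.T_le_L
  have h5 := h.toBig.T
  have h6 : 3 * Real.log x ≤ Real.log x ^ 3 := by
    have h7 : (3 : ℝ) ≤ Real.log x * Real.log x := by nlinarith
    calc 3 * Real.log x ≤ (Real.log x * Real.log x) * Real.log x :=
          mul_le_mul_of_nonneg_right h7 (by linarith)
      _ = Real.log x ^ 3 := by ring
  have h8 : ((2 * (n + 2 ^ k) + Nat.log 2 x : ℕ) : ℝ) ≤ (yy x : ℝ) := by
    push_cast
    linarith
  exact_mod_cast h8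

/-- the three error terms -/
lemma errs (A : Finset ℕ) (hA : (A.card : ℝ) ≤ Real.exp (0.05 * LL x)) (k : ℕ)
    (hk : (2 : ℝ) ^ k ≤ LL x / 200) (U : ℝ) (hU : Real.exp (0.99 * Real.log x) ≤ U) :
    (zz x : ℝ) + A.card * (U * (G5 (yy x) (zz x) (2 ^ k) + 2 / yy x) +
      ((2 : ℝ) ^ k * (zz x : ℝ) ^ (2 ^ k) * (50 + (DD x : ℝ) ^ 6) + zz x)) ≤
      U / (LL x * Real.log x) := by
  have hT := h.toBig.T
  have hTp := h.toBig.Tpos
  have hL := h.toBig.Lpos
  have hTL := h.T_le_L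
  set T := LL x with hTdef
  set L := Real.log x with hLdef
  have hU0 : 0 < U := lt_of_lt_of_le (Real.exp_pos _) hU
  have hAL : (A.card : ℝ) ≤ L := by
    refine hA.trans ?_
    rw [hLdef, ← h.toBig.LT, Real.exp_le_exp]
    linarith
  have hA0 : (0 : ℝ) ≤ A.card := Nat.cast_nonneg _
  -- the sieve term
  have hg : (A.card : ℝ) * G5 (yy x) (zz x) (2 ^ k) ≤ 1 / (4 * T * L) := by
    have h1 := h.G_up (2 ^ k) (by push_cast; exact hk)
    have h2 : (A.card : ℝ) * G5 (yy x) (zz x) (2 ^ k) ≤ Real.exp (0.05 * T) *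
        (800000 * Real.exp C * T ^ 2 / L * Real.exp (-(0.117 * T))) := by
      refine mul_le_mul hA h1 ?_ (Real.exp_pos _).le
      unfold G5
      have : 0 ≤ S5 (yy x) (zz x) := S5_nonneg _ _
      positivity
    refine h2.trans ?_
    have h3 : Real.exp (0.05 * T) * (800000 * Real.exp C * T ^ 2 / L * Real.exp (-(0.117 * T))) =
        (3200000 * Real.exp C * T ^ 3 * Real.exp (-(0.067 * T))) * (1 / (4 * T * L)) := by
      have h4 : Real.exp (-(0.067 * T)) = Real.exp (0.05 * T) * Real.exp (-(0.117 * T)) := by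
        rw [← Real.exp_add]
        congr 1
        ring
      rw [h4]
      field_simp
      ring
    rw [h3]
    have h5 := h.e2
    calc (3200000 * Real.exp C * T ^ 3 * Real.exp (-(0.067 * T))) * (1 / (4 * T * L)) ≤
        1 * (1 / (4 * T * L)) := mul_le_mul_of_nonneg_right h5 (by positivity)
      _ = 1 / (4 * T * L) := one_mul _
  have hy : (A.card : ℝ) * (2 / yy x) ≤ 1 / (4 * T * L) := by
    have h1 := h.toBig.y_low
    have hy0 : (0 : ℝ) < yy x := by
      have := h.toBig.y64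
      exact_mod_cast (by omega : 0 < yy x)
    have h2 : (A.card : ℝ) * (2 / yy x) ≤ L * (2 / L ^ 3) := by
      refine mul_le_mul hAL ?_ (by positivity) hL.le
      exact div_le_div_of_nonneg_left (by norm_num) (by positivity) h1
    refine h2.trans ?_
    have h3 : L * (2 / L ^ 3) = 2 / (L * L) := by
      field_simp
    rw [h3, div_le_div_iff₀ (by positivity) (by positivity)]
    have h4 := h.toBig.Lbig
    have h5 : 8 * T ≤ L := by linarith
    nlinarith
  have herr : (zz x : ℝ) + A.card *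
      ((2 : ℝ) ^ k * (zz x : ℝ) ^ (2 ^ k) * (50 + (DD x : ℝ) ^ 6) + zz x) ≤ U / (2 * T * L) := by
    set E := Real.exp (0.001 * L) with hE
    have hE1 : L ≤ E := h.L_exp
    have hE0 : 0 < E := Real.exp_pos _
    have hbig : (10 : ℝ) ^ 6 ≤ E := by linarith
    have hEr : 1 ≤ E := by linarith
    have hz := h.z_exp
    have h1 := h.err_up k hk
    have h2 : Real.exp (0.07 * L) = E ^ 70 := by
      rw [hE, ← Real.exp_nat_mul]
      congr 1
      push_cast
      ring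
    have h3 : Real.exp (0.99 * L) = E ^ 990 := by
      rw [hE, ← Real.exp_nat_mul]
      congr 1
      push_cast
      ring
    rw [h2] at h1
    rw [h3] at hU
    rw [le_div_iff₀ (by positivity)]
    have h4 : (zz x : ℝ) + A.card *
        ((2 : ℝ) ^ k * (zz x : ℝ) ^ (2 ^ k) * (50 + (DD x : ℝ) ^ 6) + zz x) ≤ E + E * E ^ 70 := by
      refine add_le_add hz (mul_le_mul (hAL.trans hE1) h1 (by positivity) hE0.le)
    have h5 : 2 * T * L ≤ 2 * (E * E) := by
      have : T * L ≤ E * E := mul_le_mul (hTL.trans hE1) hE1 hL.le hE0.le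
      linarith
    have h6 : (E + E * E ^ 70) * (2 * (E * E)) ≤ E ^ 74 := by
      have h7 : E ≤ E ^ 71 := le_self_pow₀ hEr (by norm_num)
      have h8 : E * E ^ 70 = E ^ 71 := by ring
      rw [h8]
      calc (E + E ^ 71) * (2 * (E * E)) ≤ (E ^ 71 + E ^ 71) * (2 * (E * E)) :=
            mul_le_mul_of_nonneg_right (by linarith) (by positivity)
        _ = 4 * E ^ 73 := by ring
        _ ≤ E * E ^ 73 := mul_le_mul_of_nonneg_right (by linarith) (by positivity)
        _ = E ^ 74 := by ring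
    have h9 : E ^ 74 ≤ E ^ 990 := pow_le_pow_right₀ hEr (by norm_num)
    calc _ ≤ (E + E * E ^ 70) * (2 * (E * E)) := mul_le_mul h4 h5 (by positivity) (by positivity)
      _ ≤ E ^ 74 := h6
      _ ≤ E ^ 990 := h9
      _ ≤ U := hU
  have hfin : (zz x : ℝ) + A.card * (U * (G5 (yy x) (zz x) (2 ^ k) + 2 / yy x) +
      ((2 : ℝ) ^ k * (zz x : ℝ) ^ (2 ^ k) * (50 + (DD x : ℝ) ^ 6) + zz x)) =
      U * ((A.card : ℝ) * G5 (yy x) (zz x) (2 ^ k) + (A.card : ℝ) * (2 / yy x)) +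
      ((zz x : ℝ) + A.card * ((2 : ℝ) ^ k * (zz x : ℝ) ^ (2 ^ k) * (50 + (DD x : ℝ) ^ 6) + zz x)) := by
    ring
  rw [hfin]
  have h1 : U * ((A.card : ℝ) * G5 (yy x) (zz x) (2 ^ k) + (A.card : ℝ) * (2 / yy x)) ≤
      U * (1 / (4 * T * L) + 1 / (4 * T * L)) := mul_le_mul_of_nonneg_left (add_le_add hg hy) hU0.le
  have h2 : U * (1 / (4 * T * L) + 1 / (4 * T * L)) + U / (2 * T * L) = U / (T * L) := by
    field_simp
    ring
  linarith

/-- **the good primes for one product** -/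
lemma gb_low (hS : S_SIE) {x0 : ℕ} (hAPL : ∀ X : ℕ, x0 ≤ X → ∀ b a : ℕ, 1 ≤ b →
      ((2 : ℝ) ^ b) ≤ Real.log X → a < 2 ^ b → a % 2 = 1 →
      (X : ℝ) / (2 ^ b * Real.log X) ≤ (((Icc 1 X).filter (fun p => p.Prime ∧ p % 2 ^ b = a)).card : ℝ))
    (hx0 : (x0 : ℝ) ≤ Real.exp (0.99 * Real.log x))
    (A : Finset ℕ) (hA : (A.card : ℝ) ≤ Real.exp (0.05 * LL x)) (k b c : ℕ)
    (hk : (2 : ℝ) ^ k ≤ LL x / 200) (hb : (2 : ℝ) ^ b ≤ LL x / 200) (hc : c < 2 ^ (b + 3))
    (hc2 : c % 2 = 1) (B : Finset ℕ) (hB : ∀ q ∈ B, q ∈ Q5 (yy x) (zz x))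
    (hBc : (B.card : ℝ) ≤ LL x / 200) :
    ((x / ∏ q ∈ B, q : ℕ) : ℝ) / (2 ^ (b + 4) * Real.log x) ≤ (GB A k b x (zz x) c B).card := by
  have hT := h.toBig.T
  have hTp := h.toBig.Tpos
  have hL := h.toBig.Lpos
  have hTL := h.T_le_L
  have hLb := h.toBig.Lbig
  have hU := h.U_low B hB hBc
  have hUx : ((x / ∏ q ∈ B, q : ℕ) : ℝ) ≤ x := by exact_mod_cast Nat.div_le_self _ _
  have hsplit := gb_split hS A k b x (yy x) (zz x) c (KK x) (DD x) B h.toBig.y64 h.toBig.yz hB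
    (h.log_ok k B.card hk hBc) h.toBig.D1 h.toBig.zKD h.K_ok
  have herr := h.errs A hA k hk _ hU
  set U : ℕ := x / ∏ q ∈ B, q with hUdef
  have hU0 : (0 : ℝ) < U := lt_of_lt_of_le (Real.exp_pos _) hU
  have hlogU : 0.99 * Real.log x ≤ Real.log U := by
    rw [← Real.log_exp (0.99 * Real.log x)]
    exact Real.log_le_log (Real.exp_pos _) hU
  have hlogU2 : Real.log U ≤ Real.log x := Real.log_le_log hU0 hUx
  have h8 : (2 : ℝ) ^ (b + 3) = 8 * 2 ^ b := by rw [pow_add]; ring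
  have h16 : (2 : ℝ) ^ (b + 4) = 16 * 2 ^ b := by rw [pow_add]; ring
  have h1 := hAPL U (by exact_mod_cast hx0.trans hU) (b + 3) c (by omega)
    (by rw [h8]; linarith) hc hc2
  have h2 : (U : ℝ) / (2 ^ (b + 3) * Real.log x) ≤ U / (2 ^ (b + 3) * Real.log U) := by
    apply div_le_div_of_nonneg_left hU0.le
    · have : 0 < Real.log U := by linarith
      positivity
    · exact mul_le_mul_of_nonneg_left hlogU2 (by positivity)
  have h3 : (U : ℝ) / (LL x * Real.log x) ≤ U / (2 ^ (b + 4) * Real.log x) := by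
    apply div_le_div_of_nonneg_left hU0.le (by positivity)
    apply mul_le_mul_of_nonneg_right _ hL.le
    rw [h16]
    linarith
  have h4 : (U : ℝ) / (2 ^ (b + 3) * Real.log x) =
      U / (2 ^ (b + 4) * Real.log x) + U / (2 ^ (b + 4) * Real.log x) := by
    rw [h8, h16]
    field_simp
    ring
  linarith

end Big2

end Pool.Agent.Q132.EP
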