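import Pool.Agent.Q132.EP.OddE

set_option autoImplicit false

/-!
# Odd values of the patterns: the theorem
-/

namespace Pool.Agent.Q132.EP

open Finset Filter Topology

lemma ev_e1 (C : ℝ) : ∀ᶠ x : ℕ in atTop, Real.log (16000 * LL x ^ 2) / 6 + C ≤ LL x / 42 := by
  have h1 : Tendsto (fun t : ℝ => Real.log t ^ 1 / (1 * t + 0)) atTop (𝓝 0) :=
    Real.tendsto_pow_log_div_mul_add_atTop 1 0 1 one_ne_zero
  have h2 := h1.comp LL_tend
  filter_upwards [h2.eventually (gt_mem_nhds (show (0 : ℝ) < 1 / 200 by norm_num)),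
    LL_tend.eventually_ge_atTop (200 * (|C| + Real.log 16000 + 1))] with x hx hx1
  simp only [Function.comp, one_mul, add_zero, pow_one] at hx
  have h16 : 0 < Real.log 16000 := Real.log_pos (by norm_num)
  have hC := abs_nonneg C
  have hC2 := le_abs_self C
  have hT : 0 < LL x := by nlinarith
  rw [div_lt_iff₀ hT] at hx
  rw [Real.log_mul (by norm_num) (by positivity), Real.log_pow]
  push_cast
  nlinarith

lemma ev_e2 (C : ℝ) :
    ∀ᶠ x : ℕ in atTop, 3200000 * Real.exp C * LL x ^ 3 * Real.exp (-(0.067 * LL x)) ≤ 1 := by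
  have h1 : Tendsto (fun t : ℝ => t ^ 3 * Real.exp (-t)) atTop (𝓝 0) :=
    Real.tendsto_pow_mul_exp_neg_atTop_nhds_zero 3
  have h2 : Tendsto (fun x : ℕ => 0.067 * LL x) atTop atTop := LL_tend.const_mul_atTop (by norm_num)
  have h3 := (h1.comp h2).const_mul (3200000 * Real.exp C / 0.067 ^ 3)
  rw [mul_zero] at h3
  filter_upwards [h3.eventually (gt_mem_nhds one_pos)] with x hx
  refine le_trans (le_of_eq ?_) hx.le
  simp only [Function.comp]
  rw [mul_pow]
  field_simp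

lemma ev_Big2 (hMs : S_MAS) : ∃ C : ℝ, ∀ᶠ x : ℕ in atTop, Big2 C x := by
  obtain ⟨C, hC, hm⟩ := hMs
  refine ⟨C, ?_⟩
  filter_upwards [ev_Big, ev_e1 C, ev_e2 C, LL_tend.eventually_ge_atTop (16 * C + 8)] with x h0 h1 h2 h3
  have h4 := hm (yy x) (zz x) (by have := h0.y64; omega) h0.yz
  exact { toBig := h0, C0 := hC, mas := h4.1, mas5 := h4.2, e1 := h1, e2 := h2, e3 := h3 }

/-- the sum over the products is large -/
lemma Big2.E_low {C : ℝ} {x : ℕ} (h : Big2 C x) (k : ℕ) (hk1 : (2 : ℝ) ^ k ≤ LL x / 200)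
    (hk2 : LL x / 200 < 2 ^ (k + 1)) :
    Real.exp (0.0075 * LL x - 6) ≤
      ∑ B ∈ powersetCard (2 ^ k - 2) (Q5 (yy x) (zz x)), ∏ q ∈ B, (1 : ℝ) / q := by
  have hT := h.toBig.T
  have hTp := h.toBig.Tpos
  set T := LL x with hTdef
  set k1 := 2 ^ k - 2 with hk1def
  have hS := h.S_low
  set S := S5 (yy x) (zz x) with hSdef
  have hy64 := h.toBig.y64
  have hy0 : (64 : ℝ) ≤ yy x := by exact_mod_cast hy64
  have h2k : (2 : ℝ) ^ (k + 1) = 2 * 2 ^ k := by rw [pow_succ]; ring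
  have h2k4 : 2 ≤ 2 ^ k := by
    have : (2 : ℝ) ≤ 2 ^ k := by linarith
    exact_mod_cast this
  have hk1r : (k1 : ℝ) = 2 ^ k - 2 := by
    rw [hk1def, Nat.cast_sub h2k4]
    push_cast
    ring
  have hk1up : (k1 : ℝ) ≤ T / 200 := by linarith
  have hk1low : T / 400 - 2 ≤ (k1 : ℝ) := by linarith
  have hk10 : 0 < (k1 : ℝ) := by linarith
  have hy1 : (k1 : ℝ) * (1 / yy x) ≤ T / 200 := by
    calc (k1 : ℝ) * (1 / yy x) ≤ (T / 200) * 1 := by
          refine mul_le_mul hk1up ?_ (by positivity) (by positivity)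
          rw [div_le_one (by linarith)]
          linarith
      _ = T / 200 := mul_one _
  have h1 := sum_low (yy x) (zz x) k1 (by omega) (by rw [← hSdef]; linarith)
  refine le_trans ?_ h1
  rw [← hSdef]
  have h2 : 25 * (k1 : ℝ) ≤ S - k1 * (1 / yy x) := by linarith
  have h3 : (k1.factorial : ℝ) ≤ (k1 : ℝ) ^ k1 := by exact_mod_cast Nat.factorial_le_pow k1
  have h4 : (0 : ℝ) < (k1.factorial : ℝ) := by exact_mod_cast Nat.factorial_pos _
  rw [le_div_iff₀ h4]
  have h5 : Real.exp (0.0075 * T - 6) ≤ 25 ^ k1 := by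
    have h6 : Real.exp (0.0075 * T - 6) ≤ Real.exp (k1 * 3) := by
      rw [Real.exp_le_exp]
      linarith
    refine h6.trans ?_
    rw [Real.exp_nat_mul]
    apply pow_le_pow_left₀ (Real.exp_pos _).le
    have h7 : Real.exp 3 = Real.exp 1 ^ 3 := by
      rw [← Real.exp_nat_mul]
      norm_num
    rw [h7]
    have h8 := Real.exp_one_lt_d9
    calc Real.exp 1 ^ 3 ≤ (2.7182818286 : ℝ) ^ 3 := pow_le_pow_left₀ (Real.exp_pos _).le h8.le 3
      _ ≤ 25 := by norm_num
  calc Real.exp (0.0075 * T - 6) * (k1.factorial : ℝ) ≤ 25 ^ k1 * (k1 : ℝ) ^ k1 :=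
        mul_le_mul h5 h3 h4.le (by positivity)
    _ = (25 * (k1 : ℝ)) ^ k1 := (mul_pow _ _ _).symm
    _ ≤ (S - k1 * (1 / yy x)) ^ k1 := pow_le_pow_left₀ (by positivity) h2 _

/-- **the odd values** -/
theorem odd_main (hS : S_SIE) (hMs : S_MAS) (hAPL : S_APL) :
    ∃ x0 : ℕ, ∀ x : ℕ, x0 ≤ x → ∀ (A : Finset ℕ) (b ρ : ℕ), 0 ∈ A →
      (A.card : ℝ) ≤ Real.log x ^ (1 / 20 : ℝ) → (2 : ℝ) ^ b ≤ LL x / 200 →
      2 * (Real.sqrt x / Real.log x ^ (199 / 200 : ℝ)) ≤
        (((range (x + 1)).filter fun u => u % 2 ^ b = ρ % 2 ^ b ∧ Odd (psum A u)).card : ℝ) := by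
  classical
  obtain ⟨C, hC⟩ := ev_Big2 hMs
  obtain ⟨x1, hx1⟩ := hAPL
  have hev : ∀ᶠ x : ℕ in atTop, (x1 : ℝ) ≤ Real.log x := log_tend.eventually_ge_atTop _
  obtain ⟨x0, hx0⟩ := eventually_atTop.1 (hC.and hev)
  refine ⟨x0, fun x hx A b ρ hA0 hA hb => ?_⟩
  obtain ⟨h, e1⟩ := hx0 x hx
  have hT := h.toBig.T
  have hTp := h.toBig.Tpos
  have hL := h.toBig.Lpos
  have hTL := h.T_le_L
  have hLb := h.toBig.Lbig
  have hx0r := h.toBig.xpos
  have hx1' : (x1 : ℝ) ≤ Real.exp (0.99 * Real.log x) := by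
    have h1 := Real.quadratic_le_exp_of_nonneg (show 0 ≤ 0.99 * Real.log x by positivity)
    nlinarith
  have hA' : (A.card : ℝ) ≤ Real.exp (0.05 * LL x) := by
    refine hA.trans (le_of_eq ?_)
    rw [Real.rpow_def_of_pos hL]
    unfold LL
    congr 1
    ring
  obtain ⟨k, hk1, hk2⟩ := exists_k (LL x / 200) (by linarith)
  obtain ⟨m', hm, -⟩ := Pool.Agent.H397R2.PP.NIL.cont_m k
  set m := 2 * m' + 1 with hmdef
  have hk : 2 ≤ k := by
    by_contra hcon
    have h1 : k ≤ 1 := by omega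
    have h2 : (2 : ℝ) ^ (k + 1) ≤ 2 ^ 2 := pow_le_pow_right₀ (by norm_num) (by omega)
    linarith
  have hbk1 : b < k + 1 := by
    have h1 : (2 : ℝ) ^ b < 2 ^ (k + 1) := lt_of_le_of_lt hb hk2
    exact (pow_lt_pow_iff_right₀ (by norm_num : (1 : ℝ) < 2)).1 h1
  have hbk : b ≤ 2 * (k + 1) := by omega
  have h2k : (2 : ℝ) ^ (k + 1) = 2 * 2 ^ k := by rw [pow_succ]; ring
  have h4k : ((4 ^ (k + 1) : ℕ) : ℝ) ≤ LL x ^ 2 := by
    have h1 : ((4 ^ (k + 1) : ℕ) : ℝ) = ((2 : ℝ) ^ (k + 1)) ^ 2 := by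
      push_cast
      rw [← pow_mul, mul_comm (k + 1) 2, pow_mul]
      norm_num
    rw [h1]
    exact pow_le_pow_left₀ (by positivity) (by linarith) 2
  have hmz : m ≤ zz x := by
    have h1 := h.toBig.z_low
    have h2 := h.toBig.w_low
    have h3 := Real.add_one_le_exp (Real.log x / (2000 * LL x))
    have h4 : LL x ^ 2 ≤ (zz x : ℝ) := by nlinarith
    have h5 : ((4 ^ (k + 1) : ℕ) : ℝ) ≤ (zz x : ℝ) := h4k.trans h4
    have h6 : 4 ^ (k + 1) ≤ zz x := by exact_mod_cast h5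
    omega
  -- the classes of the large primes
  have hcls : ∀ B : Finset ℕ, ∃ c : ℕ,
      B ∈ powersetCard (2 ^ k - 2) (Q5 (yy x) (zz x)) → IsCls m b ρ B c := by
    intro B
    by_cases hB : B ∈ powersetCard (2 ^ k - 2) (Q5 (yy x) (zz x))
    · have h1 := mem_powersetCard.1 hB
      obtain ⟨c, hc⟩ := exists_cls k m b ρ hk hm B (fun q hq => by
        have := h1.1 hq
        unfold Q5 at this
        rw [mem_filter] at this
        exact this.2.2) h1.2
      exact ⟨c, fun _ => hc⟩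
    · exact ⟨0, fun h => absurd h hB⟩
  choose c hc using hcls
  have hcore := odd_core A hA0 k m b ρ x (yy x) (zz x) hk hm hbk hmz c hc
  set N := (((range (x + 1)).filter fun u => u % 2 ^ b = ρ % 2 ^ b ∧ Odd (psum A u)).card : ℝ)
    with hN
  have hN0 : 0 ≤ N := Nat.cast_nonneg _
  have hcoreR : ∑ B ∈ powersetCard (2 ^ k - 2) (Q5 (yy x) (zz x)),
      ((GB A k b x (zz x) (c B) B).card : ℝ) ≤
      N * (((Nat.sqrt (24 * (x / 2 ^ (2 * (k + 1))) + 1) : ℕ) : ℝ) + 1) := by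
    rw [hN]
    exact_mod_cast hcore
  -- the lower bound of the sum
  have hb16 : (0 : ℝ) < 2 ^ (b + 4) * Real.log x := by positivity
  have hsum : (x : ℝ) / 2 * Real.exp (0.0075 * LL x - 6) / (2 ^ (b + 4) * Real.log x) ≤
      ∑ B ∈ powersetCard (2 ^ k - 2) (Q5 (yy x) (zz x)),
        ((GB A k b x (zz x) (c B) B).card : ℝ) := by
    have h1 : ∀ B ∈ powersetCard (2 ^ k - 2) (Q5 (yy x) (zz x)),
        (x : ℝ) / 2 / (2 ^ (b + 4) * Real.log x) * ∏ q ∈ B, (1 : ℝ) / q ≤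
          ((GB A k b x (zz x) (c B) B).card : ℝ) := by
      intro B hB
      have h2 := mem_powersetCard.1 hB
      have h3 : ∀ q ∈ B, q ∈ Q5 (yy x) (zz x) := fun q hq => h2.1 hq
      have h4 : (B.card : ℝ) ≤ LL x / 200 := by
        rw [h2.2]
        refine le_trans ?_ hk1
        have : ((2 ^ k - 2 : ℕ) : ℝ) ≤ ((2 ^ k : ℕ) : ℝ) := by exact_mod_cast Nat.sub_le _ _
        push_cast at this
        exact this
      have h5 := hc B hB
      have h6 := h.gb_low hS hx1 hx1' A hA' k b (c B) hk1 hb h5.1 h5.2.1 B h3 h4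
      have h7 := h.U_half B h3 h4
      refine le_trans ?_ h6
      rw [div_mul_eq_mul_div]
      exact div_le_div_of_nonneg_right h7 hb16.le
    refine le_trans ?_ (Finset.sum_le_sum h1)
    rw [← Finset.mul_sum]
    have h2 := h.E_low k hk1 hk2
    calc (x : ℝ) / 2 * Real.exp (0.0075 * LL x - 6) / (2 ^ (b + 4) * Real.log x) =
        (x : ℝ) / 2 / (2 ^ (b + 4) * Real.log x) * Real.exp (0.0075 * LL x - 6) := by ring
      _ ≤ _ := mul_le_mul_of_nonneg_left h2 (by positivity)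
  -- the square root
  have hdiv : ((x / 2 ^ (2 * (k + 1)) : ℕ) : ℝ) ≤ x / ((2 : ℝ) ^ (k + 1)) ^ 2 := by
    refine Nat.cast_div_le.trans (le_of_eq ?_)
    push_cast
    rw [← pow_mul]
    congr 2
    ring
  set s := Real.sqrt x / 2 ^ (k + 1) with hs
  have hs2 : s ^ 2 = x / ((2 : ℝ) ^ (k + 1)) ^ 2 := by
    rw [hs, div_pow, Real.sq_sqrt hx0r.le]
  have hs0 : 0 ≤ s := by positivity
  have hs100 : 100 ≤ s := by
    have h1 : (10000 : ℝ) ≤ s ^ 2 := by
      rw [hs2, le_div_iff₀ (by positivity)]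
      have h2 : ((2 : ℝ) ^ (k + 1)) ^ 2 ≤ LL x ^ 2 := pow_le_pow_left₀ (by positivity) (by linarith) 2
      have h3 := Real.quadratic_le_exp_of_nonneg hL.le
      rw [h.toBig.xexp] at h3
      have h4 : LL x * 10 ^ 10 ≤ Real.log x := by linarith
      have h5 : (LL x * 10 ^ 10) ^ 2 ≤ Real.log x ^ 2 := pow_le_pow_left₀ (by positivity) h4 2
      nlinarith
    nlinarith
  have hsq : ((Nat.sqrt (24 * (x / 2 ^ (2 * (k + 1))) + 1) : ℕ) : ℝ) + 1 ≤ 6 * s := by
    have h1 : ((Nat.sqrt (24 * (x / 2 ^ (2 * (k + 1))) + 1) : ℕ) : ℝ) ≤ 4.95 * s := by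
      refine Real.nat_sqrt_le_real_sqrt.trans ?_
      rw [Real.sqrt_le_left (by positivity)]
      push_cast
      nlinarith
    linarith
  have hfin : (x : ℝ) / 2 * Real.exp (0.0075 * LL x - 6) / (2 ^ (b + 4) * Real.log x) ≤
      N * (6 * s) := by
    have h1 : N * (((Nat.sqrt (24 * (x / 2 ^ (2 * (k + 1))) + 1) : ℕ) : ℝ) + 1) ≤ N * (6 * s) :=
      mul_le_mul_of_nonneg_left hsq hN0
    linarith
  have hx2 : (x : ℝ) = s * (2 ^ (k + 1)) * Real.sqrt x := by
    rw [hs, div_mul_cancel₀ _ (by positivity), Real.mul_self_sqrt hx0r.le]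
  have hsx : 0 < Real.sqrt x := Real.sqrt_pos.2 hx0r
  -- the powers of the logarithm
  have hpow : 2 * (Real.sqrt x / Real.log x ^ (199 / 200 : ℝ)) ≤
      Real.sqrt x * Real.exp (0.0075 * LL x - 6) / (192 * Real.log x) := by
    have h1 : Real.log x ^ (199 / 200 : ℝ) = Real.exp (0.995 * LL x) := by
      rw [Real.rpow_def_of_pos hL]
      unfold LL
      congr 1
      ring
    rw [h1, ← mul_div_assoc, div_le_div_iff₀ (Real.exp_pos _) (by positivity)]
    have h2 : 384 * Real.log x ≤ Real.exp (0.0075 * LL x - 6) * Real.exp (0.995 * LL x) := by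
      rw [← h.toBig.LT, ← Real.exp_add]
      have h3 : (384 : ℝ) ≤ Real.exp (0.0025 * LL x - 6) := by
        have := Real.add_one_le_exp (0.0025 * LL x - 6)
        linarith
      calc 384 * Real.exp (LL x) ≤ Real.exp (0.0025 * LL x - 6) * Real.exp (LL x) :=
            mul_le_mul_of_nonneg_right h3 (Real.exp_pos _).le
        _ = Real.exp (0.0075 * LL x - 6 + 0.995 * LL x) := by
            rw [← Real.exp_add]
            congr 1
            ring
    calc 2 * Real.sqrt x * (192 * Real.log x) = Real.sqrt x * (384 * Real.log x) := by ring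
      _ ≤ Real.sqrt x * (Real.exp (0.0075 * LL x - 6) * Real.exp (0.995 * LL x)) :=
          mul_le_mul_of_nonneg_left h2 hsx.le
      _ = _ := by ring
  refine hpow.trans ?_
  have hs6 : 0 < 6 * s := by linarith
  have h20 : Real.sqrt x * Real.exp (0.0075 * LL x - 6) / (192 * Real.log x) * (6 * s) ≤
      N * (6 * s) := by
    refine le_trans ?_ hfin
    have hb1 : (0 : ℝ) < 2 ^ b := by positivity
    have h21 : (x : ℝ) / 2 * Real.exp (0.0075 * LL x - 6) / (2 ^ (b + 4) * Real.log x) =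
        Real.sqrt x * Real.exp (0.0075 * LL x - 6) / (192 * Real.log x) * (6 * s) *
          (2 ^ (k + 1) / 2 ^ b) := by
      have h22 : (2 : ℝ) ^ (b + 4) = 16 * 2 ^ b := by rw [pow_add]; ring
      rw [h22]
      have key : ∀ L' E' : ℝ, 0 < L' → (x : ℝ) / 2 * E' / (16 * 2 ^ b * L') =
          Real.sqrt x * E' / (192 * L') * (6 * s) * (2 ^ (k + 1) / 2 ^ b) := by
        intro L' E' hL'
        conv_lhs => rw [hx2]
        field_simp
        ring
      exact key _ _ hL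
    rw [h21]
    have h23 : (1 : ℝ) ≤ 2 ^ (k + 1) / 2 ^ b := by
      rw [one_le_div hb1]
      exact pow_le_pow_right₀ (by norm_num) hbk1.le
    exact le_mul_of_one_le_right (by positivity) h23
  exact le_of_mul_le_mul_right h20 hs6

end Pool.Agent.Q132.EP
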