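import Pool.Agent.H307R2.OP.DefsC
import Pool.Agent.H397R2.PP.Defs

set_option autoImplicit false

/-!
# Linear patterns of `p(n)` modulo 2, uniformly in the pattern: statements of the tasks (MP_ebc808_nt)

The target: there is `c > 0` such that for all large `x` and all nonempty sets `A` of at most `(log x) ^ c`
natural numbers the sum of the `p (n - a)`, `a ∈ A`, `a ≤ n`, is even for at least `c √x log log x` of the
`n ≤ x` and (if `0 ∈ A`) odd for at least `√x / (log x) ^ (1 - c)` of them.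
-/

namespace Pool.Agent.Q132.EP

open Finset

/-- the number of the primes `q ≡ 5 (mod 8)` which divide `n` exactly once -/
def cnt5 (n : ℕ) : ℕ := (n.primeFactors.filter (fun q => ¬ q ^ 2 ∣ n ∧ q % 8 = 5)).card

/-- the primes `q ≡ 5 (mod 8)` with `y < q ≤ z` -/
def Q5 (y z : ℕ) : Finset ℕ := (Ioc y z).filter (fun q => q.Prime ∧ q % 8 = 5)

/-- the sum of the `1 / q` over the primes `q ≡ 5 (mod 8)` with `y < q ≤ z` -/
noncomputable def S5 (y z : ℕ) : ℝ := ∑ q ∈ Q5 y z, (1 : ℝ) / q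

/-- the sum of the `1 / q` over the primes `q` with `y < q ≤ z` -/
noncomputable def V (y z : ℕ) : ℝ := ∑ q ∈ (Ioc y z).filter Nat.Prime, (1 : ℝ) / q

/-- the parity of the number of the generalised pentagonal numbers `g` with `M g ≤ n` -/
noncomputable def Jm (M n : ℕ) : ZMod 2 :=
  ∑ v ∈ range (n / M + 1), PowerSeries.coeff v (PowerSeries.pentagonalSeries (ZMod 2))

/-- **Task FEW.** Few integers have at most `k` primes `q ≡ 5 (mod 8)` dividing them exactly once.

PROOF. This is `Pool.Agent.H495R3.NA.taskRK` (file `H495R3/NA/TaskRK.lean`) word for word, with the condition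
`r ∣ q + 1` on the primes replaced by `q % 8 = 5` everywhere (in `cnt`, `hh`, `hh_prime`, `RS`, ...): copy that
file, drop the parameter `r`, replace the condition. The only property of the condition which is used is that it
is a decidable condition on the prime `q` alone; at `Y = 2` there is no prime `≡ 5 (mod 8)` at all. -/
def S_FEW : Prop := ∃ C : ℝ, 0 < C ∧ ∀ Y k : ℕ, 2 ≤ Y →
  (((Icc 1 Y).filter (fun n => cnt5 n ≤ k)).card : ℝ) ≤
    C * 100 ^ k * Y * Real.exp (-(99 / 100) * S5 0 Y)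

/-- **Task MAS.** Mertens' theorem for all primes, and the lower bound for the primes `≡ 5 (mod 8)` which follows
from the library.

PROOF. First part: `Pool.Agent.Helper256.KM.mertens_inv` at `z` and at `y` (subtract; `PP N` there is the set of
the primes up to `N`). Second part: `Pool.Agent.H307R2.OP.pc` (file `H307R2/OP/PC.lean`) gives
`mass : ∃ i0, ∀ i ≥ i0, 1 / (6 i) ≤ ∑ p ∈ PB i 5, 1 / p`, where `PB i 5` is the set of the primes `≡ 5 (mod 8)` in
`(2 ^ i, 2 ^ (i + 1)]`. These blocks are disjoint; those with `2 ^ i ≥ y`, `2 ^ (i + 1) ≤ z`, `i ≥ i0` lie in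
`Q5 y z`. Let `s = max (Nat.clog 2 y) i0 (≥ 1)` and `t = Nat.log 2 z`; if `t ≤ s` the bound holds for a large `C`
(`log log z - log log y` is bounded then); otherwise `∑_{s ≤ i < t} 1 / (6 i) ≥ (log t - log s) / 6`, and `log t`,
`log s` differ from `log log z`, `log log y` by bounded amounts. -/
def S_MAS : Prop := ∃ C : ℝ, 0 < C ∧ ∀ y z : ℕ, 3 ≤ y → y ≤ z →
  |V y z - (Real.log (Real.log z) - Real.log (Real.log y))| ≤ C ∧
  (1 / 6) * (Real.log (Real.log z) - Real.log (Real.log y)) - C ≤ S5 y z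

/-- **Task APL.** Primes in the odd residue classes modulo the powers of two up to `log x`.

PROOF. `Pool.Agent.H387R2.Uni.siegel` (file `H387R2/U3.lean`) with `q = 2 ^ b ≤ log x ≤ (log x) ^ 2`,
`φ (2 ^ b) = 2 ^ (b - 1)`: the number is at least `π(x) / 2 ^ (b - 1) - x / (log x) ^ 6`, and
`π(x) ≥ x / (2 log x) · 3 / 2` for large `x` (`pi_tend` in `Q41/PT/Primes.lean` or in `H307R2/OP/PC.lean`), while
`x / (log x) ^ 6 ≤ (1 / 4) x / (2 ^ b log x)` as `2 ^ b ≤ log x`. Compare `Q41/PT/Primes.lean` (`ap_close`) and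
`H307R2/OP/PC.lean` (`cnt_eq`: the relation of `H343E.piAP` to the cardinality). -/
def S_APL : Prop := ∃ x0 : ℕ, ∀ x : ℕ, x0 ≤ x → ∀ b a : ℕ, 1 ≤ b → ((2 : ℝ) ^ b) ≤ Real.log x →
  a < 2 ^ b → a % 2 = 1 →
  (x : ℝ) / (2 ^ b * Real.log x) ≤ (((Icc 1 x).filter (fun p => p.Prime ∧ p % 2 ^ b = a)).card : ℝ)

/-- **Task JOD.** The number of pentagonal numbers is odd two thirds of the time.

PROOF. The generalised pentagonal numbers are `g j = j (3 j - 1) / 2`, `j ∈ ℤ`; the coefficients of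
`pentagonalSeries (ZMod 2)` are the indicator function of the set of these numbers
(`Pool.Agent.H397R2.PP.TH.pent_eq` and `coeff_ind`, `isPent`, `pent_sq` in `H397R2/PP/TH.lean`; used in the same way
in `Q41/PT/Transfer.lean`, `supp_sq`). For `l (3 l + 1) / 2 ≤ s < (l + 1) (3 l + 2) / 2` the `j` with `g j ≤ s` are
exactly those with `-l ≤ j ≤ l`, and `g` is injective (`24 g j + 1 = (6 j - 1) ^ 2`), so there are `2 l + 1`
pentagonal numbers up to `s`. Hence `Jm M n = 1` if `n / M` is such an `s`, i.e. for all `n` in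
`[M l (3 l + 1) / 2, M (l + 1) (3 l + 2) / 2)`, an interval of `M (2 l + 1)` integers. For `l < L` these intervals are
disjoint and contained in `[0, M L (3 L - 1) / 2)`, and the sum of their lengths is `M L ^ 2` (an induction on `L`
is convenient). -/
def S_JOD : Prop := ∀ M L Y : ℕ, 1 ≤ M → M * (L * (3 * L - 1) / 2) ≤ Y →
  M * L ^ 2 ≤ ((range Y).filter (fun n => Jm M n = 1)).card

/-- **Task SIA.** The sieve for a fixed set `E` of exact prime factors. `B` is a set of primes and `∏ q ∈ B, q` is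
the multiplier of `u`.

PROOF. `Pool.Agent.H307R2.OP.sv : SVStmt` (file `H307R2/OP/SV.lean`, statement in `H307R2/OP/DefsC.lean`) with
`m = ∏ q ∈ E, q`, `P` = the primes in `(y, z]` outside `B ∪ E`, and `Ω p = {0} ∪ {the x < p with Q x ≡ h (mod p)}`
if `p ≡ 5 (mod 8)`, `Ω p = {0}` otherwise, where `Q = ∏ q ∈ B, q` is invertible modulo `m` and modulo all
`p ∈ P`. The condition `q ∣ Q u - h` for `q ∈ E` fixes the class of `u` modulo `m` (if there is no `u` at all,
nothing is to be proved; otherwise take `a` = one such `u`). `card (Ω p) ≤ 2`. The sum of the `card (Ω p) / p` is at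
most `V + S5` and at least `V + S5 - ∑_{q ∈ B ∪ E} 2 / q - ∑_{q ∣ h, q > y} 1 / q ≥ V + S5 - 1`, because
`2 (card B + card E) + log_2 h ≤ y` and `h` has at most `log_2 h` prime factors. Finally `∑ 4 / p ^ 2 ≤ 4 / y ≤ 1`
over `p > y ≥ 64`, and `16 e ≤ 50`. -/
def S_SIA : Prop := ∀ (B E : Finset ℕ) (h U y z K D : ℕ), 64 ≤ y → 1 ≤ h →
  (∀ q ∈ B, q ∈ Q5 y z) → (∀ q ∈ E, q ∈ Q5 y z) → Disjoint B E →
  2 * (B.card + E.card) + Nat.log 2 h ≤ y → 1 ≤ D → z ^ K ≤ D → 8 * (V y z + S5 y z) + 8 ≤ K →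
  (((range (U + 1)).filter (fun u => (∀ p ∈ Ioc y z, p.Prime → ¬ p ∣ u) ∧
      (∀ q ∈ E, (q : ℤ) ∣ ((∏ r ∈ B, r : ℕ) : ℤ) * u - h) ∧
      ∀ q ∈ Q5 y z, q ∉ B → q ∉ E → ¬ (q : ℤ) ∣ ((∏ r ∈ B, r : ℕ) : ℤ) * u - h)).card : ℝ) ≤
    50 * ((U : ℝ) / (∏ q ∈ E, (q : ℝ)) + 1) * Real.exp (-(V y z + S5 y z)) + (D : ℝ) ^ 6

/-- **Task SIE** (uses SIA). Primes `u` such that `Q u - h` has fewer than `R` exact prime factors `≡ 5 (mod 8)`.

PROOF. Let `u` be counted and `n = Q u - h > 0`, `Q = ∏ q ∈ B, q`. (1) If `q ^ 2 ∣ n` for some `q ∈ Q5 y z` outside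
`B`, then `u` is in one class modulo `q ^ 2`; the number of these `u ≤ U` is at most
`∑_{y < q ≤ z} (U / q ^ 2 + 1) ≤ U / y + z`. (2) Otherwise let `E` be the set of the `q ∈ Q5 y z`, `q ∉ B`, with
`q ∣ n`. They divide `n` exactly once, so `card E ≤ cnt5 n < R`, and `u` is counted in SIA for this `E` (`u` is a prime
`> z`, so no prime `≤ z` divides it). Sum the bound of SIA over all `E ⊆ Q5 y z \ B` with `card E < R`: the sum of
the `∏ q ∈ E, 1 / q` over the `E` with `card E = j` is at most `S5 ^ j / j!` (`Pool.Agent.H307R2.OP` `ESStmt.up`,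
file `H307R2/OP/ES.lean`), and the number of these `E` is at most `z ^ j ≤ z ^ R`, so there are at most `R z ^ R`
sets `E` altogether. -/
def S_SIE : Prop := ∀ (B : Finset ℕ) (h U y z K D R : ℕ), 64 ≤ y → y ≤ z → 1 ≤ h →
  (∀ q ∈ B, q ∈ Q5 y z) → 2 * (B.card + R) + Nat.log 2 h ≤ y → 1 ≤ D → z ^ K ≤ D →
  8 * (V y z + S5 y z) + 8 ≤ K →
  (((range (U + 1)).filter (fun u => u.Prime ∧ z < u ∧ h < (∏ q ∈ B, q) * u ∧
      cnt5 ((∏ q ∈ B, q) * u - h) < R)).card : ℝ) ≤
    50 * U * Real.exp (-(V y z + S5 y z)) * (∑ j ∈ range R, S5 y z ^ j / (j.factorial : ℝ)) +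
      R * (z : ℝ) ^ R * (50 + (D : ℝ) ^ 6) + 2 * U / y + z

end Pool.Agent.Q132.EP
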