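import Pool.Agent.Q132.EP.St
import Pool.Agent.H307R2.OP.AlgMain

set_option autoImplicit false

/-!
# Coefficients of the powers of the discriminant modulo 2 at numbers with many exact prime factors
-/

namespace Pool.Agent.Q132.EP

open PowerSeries Pool.Agent.H397R2.PP Pool.Agent.H307R2.OP

theorem coeff_vanish5 (c : ℕ) (G : S) (h1 : G ∈ NIL.WW c) (l : List ℕ) (hnd : l.Nodup)
    (hl : ∀ q ∈ l, q.Prime ∧ q % 8 = 5) (hlen : l.length = c) (n : ℕ) (hn : ∀ q ∈ l, ¬ q ∣ n) :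
    coeff (n * l.prod) G = 0 := by
  rw [← OC.coeff_list l hnd (fun q hq => (hl q hq).1) n hn G]
  have h := OC.fil_prod fq_main l (fun q hq => ⟨(hl q hq).1, Or.inr (hl q hq).2⟩) c G h1
  have e0 : ((c : ℤ) + -(l.length : ℤ)).toNat = 0 := by rw [hlen]; omega
  rw [e0] at h
  rw [OC.WW_zero h, map_zero]

/-- the coefficient vanishes at the numbers with many exact prime factors -/
theorem van (k m N : ℕ) (hm : 3 * m + 1 = 4 ^ (k + 1)) (h : 2 ^ k ≤ cnt5 N) :
    coeff N (Db ^ m) = 0 := by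
  obtain ⟨m', h1, h2⟩ := NIL.cont_m k
  have hmm : m = 2 * m' + 1 := by omega
  have hmem : Db ^ m ∈ NIL.WW (2 ^ k) := by
    rw [hmm]
    exact NIL.WW_mem (by omega)
  obtain ⟨s, hs1, hs2⟩ := Finset.exists_subset_card_eq h
  have hsub : ∀ q ∈ s, q.Prime ∧ q ∣ N ∧ ¬ q ^ 2 ∣ N ∧ q % 8 = 5 := by
    intro q hq
    have h3 := hs1 hq
    rw [Finset.mem_filter] at h3
    exact ⟨Nat.prime_of_mem_primeFactors h3.1, Nat.dvd_of_mem_primeFactors h3.1, h3.2.1, h3.2.2⟩
  have hdvd : ∏ q ∈ s, q ∣ N := by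
    apply Finset.prod_primes_dvd
    · intro q hq
      exact (hsub q hq).1.prime
    · intro q hq
      exact (hsub q hq).2.1
  obtain ⟨n, hn⟩ := hdvd
  have hprod : ∏ q ∈ s, q = s.toList.prod := by
    have := Finset.prod_map_toList s (fun q => q)
    rw [← this, List.map_id']
  rw [hn, mul_comm, hprod]
  refine coeff_vanish5 (2 ^ k) _ hmem s.toList (Finset.nodup_toList s)
    (fun q hq => ⟨(hsub q (Finset.mem_toList.1 hq)).1, (hsub q (Finset.mem_toList.1 hq)).2.2.2⟩)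
    (by rw [Finset.length_toList, hs2]) n ?_
  intro q hq hqn
  have hqs := Finset.mem_toList.1 hq
  apply (hsub q hqs).2.2.1
  rw [hn, pow_two]
  exact mul_dvd_mul (Finset.dvd_prod_of_mem _ hqs) hqn

/-- the coefficient at a product of `2 ^ (r - 1) - 1` distinct primes `≡ 5 (mod 8)` -/
theorem one (r m : ℕ) (hr : 3 ≤ r) (hm : 3 * m + 1 = 4 ^ r) (s : Finset ℕ)
    (hs : ∀ q ∈ s, q.Prime ∧ q % 8 = 5) (hc : s.card = 2 ^ (r - 1) - 1) :
    coeff (∏ q ∈ s, q) (Db ^ m) = 1 := by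
  refine oc_main r m hr hm s (fun q hq => ⟨(hs q hq).1, Or.inr (hs q hq).2⟩) hc (Or.inl ?_)
  rw [Finset.card_eq_zero, Finset.filter_eq_empty_iff]
  intro q hq
  have := (hs q hq).2
  omega

end Pool.Agent.Q132.EP
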